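import Mathlib.Algebra.BigOperators.Fin
import Pool.Agent.MP_5c31ca_lc.Defs

/-!
# Arbitrary cellular automata and their finite descriptions
-/

set_option autoImplicit false

namespace Pool.Agent.MP_5c31ca_lc

/-- The cellular automaton `F(x)_i = f (x_{i - r}, ..., x_{i + r})` on the alphabet `Fin N`; the
index `j : Fin (2 * r + 1)` stands for `j - r`. -/
def ca {N : ℕ} (r : ℕ) (f : (Fin (2 * r + 1) → Fin N) → Fin N) (x : ℤ → Fin N) : ℤ → Fin N :=
  fun i => f fun j => x (i + (((j : ℕ) : ℤ) - r))

/-- The finite description `(N, r, table)` of a cellular automaton: entry number `k` of the table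
is the value of the local rule on the word whose letters are the base `N` digits of `k`. -/
def caCode {N : ℕ} (r : ℕ) (f : (Fin (2 * r + 1) → Fin N) → Fin N) : ℕ × ℕ × List ℕ :=
  (N, r, List.ofFn fun k : Fin (N ^ (2 * r + 1)) => (f (finFunctionFinEquiv.symm k) : ℕ))

end Pool.Agent.MP_5c31ca_lc
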