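import Mathlib.Data.Set.Finite.Lemmas
import Mathlib.Data.ZMod.Basic
import Mathlib.Tactic.LinearCombination
import Mathlib.Data.Int.ConditionallyCompleteOrder
import Mathlib.Tactic.Bound
import Mathlib.Order.Interval.Finset.Box
import Mathlib.Computability.Primrec.List
import Pool.Agent.MP_5c31ca_lc.Defs
import Pool.Agent.MP_5c31ca_lc.q2.Defs

-- ======== part 0: formerly Pool.Agent.MP_5c31ca_lc.q2.Layers
section MrgPart0

/-!
Additive layers in which every finite difference spreads without bound.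
-/

set_option autoImplicit false

namespace Pool.Agent.MP_5c31ca_lc.Q2

/-- A nonempty finite set of cells has two ends. -/
theorem ends {p : ℤ → Prop} (hf : {i | p i}.Finite) (hne : ∃ i, p i) :
    ∃ L R, p L ∧ p R ∧ (∀ i < L, ¬p i) ∧ ∀ i, R < i → ¬p i := by
  obtain ⟨L, hL, hL'⟩ := Set.exists_min_image {i | p i} id hf hne
  obtain ⟨R, hR, hR'⟩ := Set.exists_max_image {i | p i} id hf hne
  exact ⟨L, R, hL, hR, fun i hi h => absurd (hL' i h) (not_le.2 hi),
    fun i hi h => absurd (hR' i h) (not_le.2 hi)⟩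

variable {W : Type} [AddCommGroup W]

/-- First-order layer, information flows to the right. -/
theorem first_right (d : ℕ → ℤ → W) (h : ∀ t i, d (t + 1) i = d t i + d t (i - 1))
    (hf : {i | d 0 i ≠ 0}.Finite) (D : ℕ)
    (hD : ∀ t i j, d t i ≠ 0 → d t j ≠ 0 → |i - j| ≤ D) (t : ℕ) (i : ℤ) : d t i = 0 := by
  have h0 : ∀ i, d 0 i = 0 := by
    by_contra hc
    push Not at hc
    obtain ⟨L, R, hL, hR, hL', hR'⟩ := ends hf hc
    have a : ∀ s, d s L ≠ 0 ∧ ∀ i < L, d s i = 0 := by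
      intro s
      induction s with
      | zero => exact ⟨hL, fun i hi => not_not.1 (hL' i hi)⟩
      | succ s ih =>
        refine ⟨?_, fun i hi => ?_⟩
        · rw [h, ih.2 (L - 1) (by omega), add_zero]
          exact ih.1
        · rw [h, ih.2 i hi, ih.2 (i - 1) (by omega), add_zero]
    have b : ∀ s : ℕ, d s (R + s) ≠ 0 ∧ ∀ i, R + s < i → d s i = 0 := by
      intro s
      induction s with
      | zero => exact ⟨by simpa using hR, fun i hi => not_not.1 (hR' i (by simpa using hi))⟩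
      | succ s ih =>
        refine ⟨?_, fun i hi => ?_⟩
        · rw [h, ih.2 _ (by push_cast; omega), zero_add,
            show R + ((s + 1 : ℕ) : ℤ) - 1 = R + s by push_cast; ring]
          exact ih.1
        · push_cast at hi
          rw [h, ih.2 i (by omega), ih.2 (i - 1) (by omega), add_zero]
    have hLR : L ≤ R := not_lt.1 fun hlt => hR' L hlt hL
    have := hD (D + 1) _ _ (b (D + 1)).1 (a (D + 1)).1
    rw [abs_le] at this
    push_cast at this
    omega
  induction t generalizing i with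
  | zero => exact h0 i
  | succ t ih => rw [h, ih, ih, add_zero]

/-- First-order layer, information flows to the left. -/
theorem first_left (d : ℕ → ℤ → W) (h : ∀ t i, d (t + 1) i = d t i + d t (i + 1))
    (hf : {i | d 0 i ≠ 0}.Finite) (D : ℕ)
    (hD : ∀ t i j, d t i ≠ 0 → d t j ≠ 0 → |i - j| ≤ D) (t : ℕ) (i : ℤ) : d t i = 0 := by
  have := first_right (fun t i => d t (-i))
    (fun t i => by simp only [h, neg_sub]; rw [show 1 - i = -i + 1 by ring])
    (hf.preimage neg_injective.injOn) D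
    (fun t i j hi hj => by
      have := hD t _ _ hi hj
      rwa [show -i - -j = -(i - j) by ring, abs_neg] at this) t (-i)
  simpa using this

/-- Second-order layer. -/
theorem second (u v : ℕ → ℤ → W) (hu : ∀ t i, u (t + 1) i = u t i + v t (i - 1))
    (hv : ∀ t i, v (t + 1) i = u t i) (hf : {i | u 0 i ≠ 0 ∨ v 0 i ≠ 0}.Finite) (D : ℕ)
    (hD : ∀ t i j, u t i ≠ 0 ∨ v t i ≠ 0 → u t j ≠ 0 ∨ v t j ≠ 0 → |i - j| ≤ D) (t : ℕ) (i : ℤ) :
    u t i = 0 ∧ v t i = 0 := by
  classical
  have h0 : ∀ i, u 0 i = 0 ∧ v 0 i = 0 := by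
    by_contra hc
    have hc' : ∃ i, u 0 i ≠ 0 ∨ v 0 i ≠ 0 := by
      by_contra hh
      push Not at hh
      exact hc hh
    obtain ⟨L, R, hL, hR, hL', hR'⟩ := ends hf hc'
    have b : ∀ s : ℕ, ∃ R' : ℤ, (u s R' ≠ 0 ∨ v s R' ≠ 0) ∧
        (∀ i, R' < i → u s i = 0 ∧ v s i = 0) ∧
        2 * R' + (if v s R' ≠ 0 then 1 else 0) = 2 * R + (if v 0 R ≠ 0 then 1 else 0) + s := by
      intro s
      induction s with
      | zero =>
        refine ⟨R, hR, fun i hi => ?_, by simp⟩
        have := hR' i hi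
        push Not at this
        exact this
      | succ s ih =>
        obtain ⟨R', h1, h2, h3⟩ := ih
        by_cases hz : v s R' = 0
        · have h4 : u s R' ≠ 0 := h1.resolve_right (not_not.2 hz)
          refine ⟨R', Or.inr (by rwa [hv]), fun i hi => ⟨?_, ?_⟩, ?_⟩
          · rw [hu, (h2 i hi).1, zero_add]
            rcases (show i - 1 = R' ∨ R' < i - 1 by omega) with e | e
            · rw [e, hz]
            · exact (h2 _ e).2
          · rw [hv, (h2 i hi).1]
          · rw [hv, if_pos h4]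
            rw [if_neg (not_not.2 hz)] at h3
            push_cast
            omega
        · refine ⟨R' + 1, Or.inl ?_, fun i hi => ⟨?_, ?_⟩, ?_⟩
          · rw [hu, (h2 _ (by omega)).1, zero_add, add_sub_cancel_right]
            exact hz
          · rw [hu, (h2 i (by omega)).1, (h2 _ (by omega)).2, add_zero]
          · rw [hv, (h2 i (by omega)).1]
          · rw [hv, (h2 _ (by omega)).1, if_neg (by simp)]
            rw [if_pos hz] at h3
            push_cast
            omega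
    have bb : ∀ s : ℕ, ∃ R' : ℤ, (u s R' ≠ 0 ∨ v s R' ≠ 0) ∧ 2 * R + s ≤ 2 * R' + 1 ∧
        2 * R' ≤ 2 * R + 1 + s := by
      intro s
      obtain ⟨R', h1, -, h3⟩ := b s
      refine ⟨R', h1, ?_, ?_⟩ <;> split_ifs at h3 <;> omega
    have c : ∀ s : ℕ, ∀ i < L + s, u s i = 0 ∧ v s i = 0 := by
      intro s
      induction s with
      | zero =>
        intro i hi
        have := hL' i (by simpa using hi)
        push Not at this
        exact this
      | succ s ih =>
        have hz : u s (L + s) = 0 := by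
          by_contra hz
          have a : ∀ k : ℕ, u (s + k) (L + s) ≠ 0 ∧
              ∀ i < L + s, u (s + k) i = 0 ∧ v (s + k) i = 0 := by
            intro k
            induction k with
            | zero => exact ⟨hz, ih⟩
            | succ k ik =>
              rw [← add_assoc]
              refine ⟨?_, fun i hi => ⟨?_, ?_⟩⟩
              · rw [hu, (ik.2 _ (by omega)).2, add_zero]
                exact ik.1
              · rw [hu, (ik.2 i hi).1, (ik.2 _ (by omega)).2, add_zero]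
              · rw [hv, (ik.2 i hi).1]
          obtain ⟨R', h1, h2, -⟩ := bb (s + (2 * D + 2 * (L - R).natAbs + s + 3))
          have := hD _ _ _ h1 (Or.inl (a (2 * D + 2 * (L - R).natAbs + s + 3)).1)
          rw [abs_le] at this
          push_cast at h2
          have := le_abs_self (L - R)
          omega
        intro i hi
        push_cast at hi
        have hi' : u s i = 0 := by
          rcases (show i = L + s ∨ i < L + s by omega) with e | e
          · rw [e, hz]
          · exact (ih i e).1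
        exact ⟨by rw [hu, hi', (ih _ (by omega)).2, add_zero], by rw [hv, hi']⟩
    obtain ⟨R', h1, -, h3⟩ := bb (2 * (R - L).natAbs + 2)
    have h4 := c (2 * (R - L).natAbs + 2) R' (by
      push_cast at h3 ⊢
      have := le_abs_self (R - L)
      omega)
    rcases h1 with h1 | h1
    · exact h1 h4.1
    · exact h1 h4.2
  induction t generalizing i with
  | zero => exact h0 i
  | succ t ih => exact ⟨by rw [hu, (ih _).1, (ih _).2, add_zero], by rw [hv, (ih _).1]⟩

end Pool.Agent.MP_5c31ca_lc.Q2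

end MrgPart0

-- ======== part 1: formerly Pool.Agent.MP_5c31ca_lc.q2.Auto
section MrgPart1

/-!
An automaton that has a soliton exactly when a relation tiles a helix.

Tracks `0`, `1`, `2` form a delay line, tracks `3`, `4` mark the two walls, tracks `5`, `6` carry
the payload.
-/

set_option autoImplicit false

namespace Pool.Agent.MP_5c31ca_lc.Q2

open Classical

variable {W : Type} [CommRing W] (Rel : W → W → W → Prop)

/-- The cell is a left wall. -/
def Lw (c : Fin 7 → W) : Prop := c 3 = 1 ∧ Rel (c 0) (c 2) (c 1)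

/-- The cell is a right wall. -/
def Rw (c : Fin 7 → W) : Prop := c 4 = 1 ∧ c 0 = c 2

/-- The part of the payload that is sent to the left. -/
noncomputable def mL (c : Fin 7 → W) (l r : W) : W :=
  if Lw Rel c then r + 2 * l else if Rw c then -r else r

/-- The part of the payload that is sent to the right. -/
noncomputable def mR (c : Fin 7 → W) (l r : W) : W :=
  if Lw Rel c then -l else if Rw c then l + 2 * r else l

/-- The local rule. -/
noncomputable def loc (p c q : Fin 7 → W) : Fin 7 → W :=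
  ![c 0 + p 0, c 1 + p 2, c 1, c 3 + q 3, c 4 + p 4,
    2 * mL Rel c (c 5) (c 6) - mL Rel q (q 5) (q 6),
    2 * mR Rel c (c 5) (c 6) - mR Rel p (p 5) (p 6)]

/-- The automaton. -/
noncomputable def FF (x : ℤ → Fin 7 → W) : ℤ → Fin 7 → W :=
  fun i => loc Rel (x (i - 1)) (x i) (x (i + 1))

/-- The relation tiles a helix. -/
def Helix {T : Type} (R : T → T → T → Prop) : Prop :=
  ∃ D : ℕ, 1 ≤ D ∧ ∃ τ : ℕ → T, ∀ t, R (τ t) (τ (t + D)) (τ (t + D + 1))

section Steps

variable (x : ℤ → Fin 7 → W) (t : ℕ) (i : ℤ)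

theorem st0 : (FF Rel)^[t + 1] x i 0 = (FF Rel)^[t] x i 0 + (FF Rel)^[t] x (i - 1) 0 := by
  rw [Function.iterate_succ_apply']; rfl

theorem st1 : (FF Rel)^[t + 1] x i 1 = (FF Rel)^[t] x i 1 + (FF Rel)^[t] x (i - 1) 2 := by
  rw [Function.iterate_succ_apply']; rfl

theorem st2 : (FF Rel)^[t + 1] x i 2 = (FF Rel)^[t] x i 1 := by
  rw [Function.iterate_succ_apply']; rfl

theorem st3 : (FF Rel)^[t + 1] x i 3 = (FF Rel)^[t] x i 3 + (FF Rel)^[t] x (i + 1) 3 := by
  rw [Function.iterate_succ_apply']; rfl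

theorem st4 : (FF Rel)^[t + 1] x i 4 = (FF Rel)^[t] x i 4 + (FF Rel)^[t] x (i - 1) 4 := by
  rw [Function.iterate_succ_apply']; rfl

theorem st5 : (FF Rel)^[t + 1] x i 5 =
    2 * mL Rel ((FF Rel)^[t] x i) ((FF Rel)^[t] x i 5) ((FF Rel)^[t] x i 6) -
      mL Rel ((FF Rel)^[t] x (i + 1)) ((FF Rel)^[t] x (i + 1) 5) ((FF Rel)^[t] x (i + 1) 6) := by
  rw [Function.iterate_succ_apply']; rfl

theorem st6 : (FF Rel)^[t + 1] x i 6 =
    2 * mR Rel ((FF Rel)^[t] x i) ((FF Rel)^[t] x i 5) ((FF Rel)^[t] x i 6) -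
      mR Rel ((FF Rel)^[t] x (i - 1)) ((FF Rel)^[t] x (i - 1) 5) ((FF Rel)^[t] x (i - 1) 6) := by
  rw [Function.iterate_succ_apply']; rfl

end Steps

/-- Two cells with the same control tracks. -/
def Ctl (c c' : Fin 7 → W) : Prop :=
  c 0 = c' 0 ∧ c 1 = c' 1 ∧ c 2 = c' 2 ∧ c 3 = c' 3 ∧ c 4 = c' 4

omit [CommRing W] in
theorem ext7 {c c' : Fin 7 → W} (h : Ctl c c') (h5 : c 5 = c' 5) (h6 : c 6 = c' 6) : c = c' := by
  obtain ⟨h0, h1, h2, h3, h4⟩ := h
  funext k
  fin_cases k <;> assumption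

theorem mL_sub {c c' : Fin 7 → W} (h : Ctl c c') (l r l' r' : W) :
    mL Rel c l r - mL Rel c' l' r' = mL Rel c (l - l') (r - r') := by
  obtain ⟨h0, h1, h2, h3, h4⟩ := h
  simp only [mL, Lw, Rw, h0, h1, h2, h3, h4]
  split_ifs <;> ring

theorem mR_sub {c c' : Fin 7 → W} (h : Ctl c c') (l r l' r' : W) :
    mR Rel c l r - mR Rel c' l' r' = mR Rel c (l - l') (r - r') := by
  obtain ⟨h0, h1, h2, h3, h4⟩ := h
  simp only [mR, Lw, Rw, h0, h1, h2, h3, h4]
  split_ifs <;> ring

theorem mL_zero (c : Fin 7 → W) : mL Rel c 0 0 = 0 := by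
  simp only [mL]
  split_ifs <;> ring

theorem mR_zero (c : Fin 7 → W) : mR Rel c 0 0 = 0 := by
  simp only [mR]
  split_ifs <;> ring

theorem mix_inj (c : Fin 7 → W) {l r : W} (h1 : mL Rel c l r = 0) (h2 : mR Rel c l r = 0) :
    l = 0 ∧ r = 0 := by
  simp only [mL, mR] at h1 h2
  split_ifs at h1 h2
  · have : l = 0 := by simpa using h2
    exact ⟨this, by simpa [this] using h1⟩
  · have : r = 0 := by simpa using h1
    exact ⟨by simpa [this] using h2, this⟩
  · exact ⟨h2, h1⟩

theorem lw_of (c : Fin 7 → W) {l r : W} (h1 : mL Rel c l r = 0) (h2 : r ≠ 0) : Lw Rel c := by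
  by_contra h
  simp only [mL, if_neg h] at h1
  split_ifs at h1
  · exact h2 (by simpa using h1)
  · exact h2 h1

theorem rw_of (c : Fin 7 → W) {l r : W} (h1 : mR Rel c l r = 0) (h2 : l ≠ 0) :
    ¬Lw Rel c ∧ Rw c := by
  simp only [mR] at h1
  split_ifs at h1 with a b
  · exact absurd (by simpa using h1) h2
  · exact ⟨a, b⟩
  · exact absurd h1 h2

/-- A confined payload forces two persistent walls. -/
theorem walls (h2 : ∀ z : W, 2 * z = 0 → z = 0) (c : ℕ → ℤ → Fin 7 → W) (l r : ℕ → ℤ → W)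
    (hl : ∀ t i, l (t + 1) i = 2 * mL Rel (c t i) (l t i) (r t i) -
      mL Rel (c t (i + 1)) (l t (i + 1)) (r t (i + 1)))
    (hr : ∀ t i, r (t + 1) i = 2 * mR Rel (c t i) (l t i) (r t i) -
      mR Rel (c t (i - 1)) (l t (i - 1)) (r t (i - 1)))
    (hf : {i | l 0 i ≠ 0 ∨ r 0 i ≠ 0}.Finite) (hne : ∃ i, l 0 i ≠ 0 ∨ r 0 i ≠ 0) (D : ℕ)
    (hD : ∀ t i j, l t i ≠ 0 ∨ r t i ≠ 0 → l t j ≠ 0 ∨ r t j ≠ 0 → |i - j| ≤ D) :
    ∃ (L R : ℤ) (t₀ : ℕ), L < R ∧ ∀ t, t₀ ≤ t → Lw Rel (c t L) ∧ Rw (c t R) := by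
  let IsL : ℕ → ℤ → Prop := fun t L => (l t L ≠ 0 ∨ r t L ≠ 0) ∧ ∀ i < L, l t i = 0 ∧ r t i = 0
  let IsR : ℕ → ℤ → Prop := fun t R => (l t R ≠ 0 ∨ r t R ≠ 0) ∧ ∀ i, R < i → l t i = 0 ∧ r t i = 0
  have sL : ∀ t L, IsL t L → IsL (t + 1) (L - 1) ∨
      (IsL (t + 1) L ∧ mL Rel (c t L) (l t L) (r t L) = 0 ∧ r (t + 1) L ≠ 0) := by
    intro t L ⟨h1, h3⟩
    have z : ∀ i < L, mL Rel (c t i) (l t i) (r t i) = 0 ∧ mR Rel (c t i) (l t i) (r t i) = 0 :=
      fun i hi => by rw [(h3 i hi).1, (h3 i hi).2]; exact ⟨mL_zero Rel _, mR_zero Rel _⟩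
    have zr : ∀ i < L, r (t + 1) i = 0 := fun i hi => by
      rw [hr, (z i hi).2, (z (i - 1) (by omega)).2]; ring
    have zl : ∀ i < L - 1, l (t + 1) i = 0 := fun i hi => by
      rw [hl, (z i (by omega)).1, (z (i + 1) (by omega)).1]; ring
    have e : l (t + 1) (L - 1) = -mL Rel (c t L) (l t L) (r t L) := by
      rw [hl, (z (L - 1) (by omega)).1, sub_add_cancel]; ring
    by_cases hm : mL Rel (c t L) (l t L) (r t L) = 0
    · have hr' : r (t + 1) L ≠ 0 := by
        rw [hr, (z (L - 1) (by omega)).2, sub_zero]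
        intro h
        obtain ⟨a, b⟩ := mix_inj Rel _ hm (h2 _ h)
        exact h1.elim (fun h => h a) fun h => h b
      refine Or.inr ⟨⟨Or.inr hr', fun i hi => ⟨?_, zr i hi⟩⟩, hm, hr'⟩
      rcases (show i = L - 1 ∨ i < L - 1 by omega) with h | h
      · rw [h, e, hm, neg_zero]
      · exact zl i h
    · exact Or.inl ⟨Or.inl (by rw [e]; exact neg_ne_zero.2 hm),
        fun i hi => ⟨zl i hi, zr i (by omega)⟩⟩
  have sR : ∀ t R, IsR t R → IsR (t + 1) (R + 1) ∨
      (IsR (t + 1) R ∧ mR Rel (c t R) (l t R) (r t R) = 0 ∧ l (t + 1) R ≠ 0) := by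
    intro t R ⟨h1, h3⟩
    have z : ∀ i, R < i →
        mL Rel (c t i) (l t i) (r t i) = 0 ∧ mR Rel (c t i) (l t i) (r t i) = 0 :=
      fun i hi => by rw [(h3 i hi).1, (h3 i hi).2]; exact ⟨mL_zero Rel _, mR_zero Rel _⟩
    have zl : ∀ i, R < i → l (t + 1) i = 0 := fun i hi => by
      rw [hl, (z i hi).1, (z (i + 1) (by omega)).1]; ring
    have zr : ∀ i, R + 1 < i → r (t + 1) i = 0 := fun i hi => by
      rw [hr, (z i (by omega)).2, (z (i - 1) (by omega)).2]; ring
    have e : r (t + 1) (R + 1) = -mR Rel (c t R) (l t R) (r t R) := by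
      rw [hr, (z (R + 1) (by omega)).2, add_sub_cancel_right]; ring
    by_cases hm : mR Rel (c t R) (l t R) (r t R) = 0
    · have hl' : l (t + 1) R ≠ 0 := by
        rw [hl, (z (R + 1) (by omega)).1, sub_zero]
        intro h
        obtain ⟨a, b⟩ := mix_inj Rel _ (h2 _ h) hm
        exact h1.elim (fun h => h a) fun h => h b
      refine Or.inr ⟨⟨Or.inl hl', fun i hi => ⟨zl i hi, ?_⟩⟩, hm, hl'⟩
      rcases (show i = R + 1 ∨ R + 1 < i by omega) with h | h
      · rw [h, e, hm, neg_zero]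
      · exact zr i h
    · exact Or.inl ⟨Or.inr (by rw [e]; exact neg_ne_zero.2 hm),
        fun i hi => ⟨zl i (by omega), zr i hi⟩⟩
  obtain ⟨L₀, R₀, hL, hR, hL', hR'⟩ := ends hf hne
  have iL : IsL 0 L₀ := ⟨hL, fun i hi => by have := hL' i hi; push Not at this; exact this⟩
  have iR : IsR 0 R₀ := ⟨hR, fun i hi => by have := hR' i hi; push Not at this; exact this⟩
  have eL : ∀ t, ∃ L ≤ L₀, IsL t L := by
    intro t
    induction t with
    | zero => exact ⟨L₀, le_rfl, iL⟩
    | succ t ih =>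
      obtain ⟨L, a, b⟩ := ih
      rcases sL t L b with h | h
      · exact ⟨L - 1, by omega, h⟩
      · exact ⟨L, a, h.1⟩
  have eR : ∀ t, ∃ R, R₀ ≤ R ∧ IsR t R := by
    intro t
    induction t with
    | zero => exact ⟨R₀, le_rfl, iR⟩
    | succ t ih =>
      obtain ⟨R, a, b⟩ := ih
      rcases sR t R b with h | h
      · exact ⟨R + 1, by omega, h⟩
      · exact ⟨R, a, h.1⟩
  obtain ⟨L, ⟨t₁, a₁⟩, mL'⟩ := Int.exists_least_of_bdd (P := fun L => ∃ t, IsL t L)
    ⟨R₀ - D, fun L ⟨t, h⟩ => by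
      obtain ⟨R, a, b⟩ := eR t
      have := hD t _ _ b.1 h.1
      rw [abs_le] at this
      omega⟩ ⟨L₀, 0, iL⟩
  obtain ⟨R, ⟨t₂, a₂⟩, mR'⟩ := Int.exists_greatest_of_bdd (P := fun R => ∃ t, IsR t R)
    ⟨L₀ + D, fun R ⟨t, h⟩ => by
      obtain ⟨L, a, b⟩ := eL t
      have := hD t _ _ h.1 b.1
      rw [abs_le] at this
      omega⟩ ⟨R₀, 0, iR⟩
  have fL : ∀ t, IsL t L →
      IsL (t + 1) L ∧ mL Rel (c t L) (l t L) (r t L) = 0 ∧ r (t + 1) L ≠ 0 := fun t h =>
    (sL t L h).resolve_left fun h' => by have := mL' _ ⟨_, h'⟩; omega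
  have fR : ∀ t, IsR t R →
      IsR (t + 1) R ∧ mR Rel (c t R) (l t R) (r t R) = 0 ∧ l (t + 1) R ≠ 0 := fun t h =>
    (sR t R h).resolve_left fun h' => by have := mR' _ ⟨_, h'⟩; omega
  have gL : ∀ t, t₁ ≤ t → IsL t L := fun t ht => by
    induction t, ht using Nat.le_induction with
    | base => exact a₁
    | succ t _ ih => exact (fL t ih).1
  have gR : ∀ t, t₂ ≤ t → IsR t R := fun t ht => by
    induction t, ht using Nat.le_induction with
    | base => exact a₂
    | succ t _ ih => exact (fR t ih).1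
  have kL : ∀ t, t₁ + t₂ + 1 ≤ t → Lw Rel (c t L) := fun t ht => by
    obtain ⟨s, rfl⟩ : ∃ s, t = s + 1 := ⟨t - 1, by omega⟩
    exact lw_of Rel _ (fL _ (gL _ (by omega))).2.1 (fL _ (gL s (by omega))).2.2
  have kR : ∀ t, t₁ + t₂ + 1 ≤ t → ¬Lw Rel (c t R) ∧ Rw (c t R) := fun t ht => by
    obtain ⟨s, rfl⟩ : ∃ s, t = s + 1 := ⟨t - 1, by omega⟩
    exact rw_of Rel _ (fR _ (gR _ (by omega))).2.1 (fR _ (gR s (by omega))).2.2
  refine ⟨L, R, t₁ + t₂ + 1, ?_, fun t ht => ⟨kL t ht, (kR t ht).2⟩⟩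
  have b1 := gL (t₁ + t₂ + 1) (by omega)
  have b2 := gR (t₁ + t₂ + 1) (by omega)
  refine lt_of_le_of_ne (not_lt.1 fun h => ?_) fun h => ?_
  · have := b2.2 L h
    exact b1.1.elim (fun h => h this.1) fun h => h this.2
  · exact (kR _ le_rfl).1 (h ▸ kL _ le_rfl)

/-- A soliton gives a tiling of a helix. -/
theorem helix_of_soliton (h2 : ∀ z : W, 2 * z = 0 → z = 0) (h : HasSoliton (FF Rel)) :
    Helix Rel := by
  obtain ⟨x, y, hne, hf, D, hD⟩ := h
  have ne : ∀ {t i} (k : Fin 7), (FF Rel)^[t] x i k - (FF Rel)^[t] y i k ≠ 0 →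
      (FF Rel)^[t] x i ≠ (FF Rel)^[t] y i := fun k h e => h (by rw [e, sub_self])
  have fin : ∀ k : Fin 7, {i | (FF Rel)^[0] x i k - (FF Rel)^[0] y i k ≠ 0}.Finite := fun k =>
    hf.subset fun i hi => ne (t := 0) k hi
  have fin2 : ∀ k k' : Fin 7, {i | (FF Rel)^[0] x i k - (FF Rel)^[0] y i k ≠ 0 ∨
      (FF Rel)^[0] x i k' - (FF Rel)^[0] y i k' ≠ 0}.Finite := fun k k' =>
    (fin k).union (fin k')
  have c0 := first_right (fun t i => (FF Rel)^[t] x i 0 - (FF Rel)^[t] y i 0)
    (fun t i => by simp only [st0]; ring) (fin 0) D fun t i j a b => hD t i j (ne _ a) (ne _ b)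
  have c4 := first_right (fun t i => (FF Rel)^[t] x i 4 - (FF Rel)^[t] y i 4)
    (fun t i => by simp only [st4]; ring) (fin 4) D fun t i j a b => hD t i j (ne _ a) (ne _ b)
  have c3 := first_left (fun t i => (FF Rel)^[t] x i 3 - (FF Rel)^[t] y i 3)
    (fun t i => by simp only [st3]; ring) (fin 3) D fun t i j a b => hD t i j (ne _ a) (ne _ b)
  have c1 := second (fun t i => (FF Rel)^[t] x i 1 - (FF Rel)^[t] y i 1)
    (fun t i => (FF Rel)^[t] x i 2 - (FF Rel)^[t] y i 2)
    (fun t i => by simp only [st1]; ring) (fun t i => by simp only [st2]) (fin2 1 2) D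
    fun t i j a b => hD t i j (a.elim (ne _) (ne _)) (b.elim (ne _) (ne _))
  have ct : ∀ t i, Ctl ((FF Rel)^[t] x i) ((FF Rel)^[t] y i) := fun t i =>
    ⟨sub_eq_zero.1 (c0 t i), sub_eq_zero.1 (c1 t i).1, sub_eq_zero.1 (c1 t i).2,
      sub_eq_zero.1 (c3 t i), sub_eq_zero.1 (c4 t i)⟩
  obtain ⟨L, R, t₀, hLR, hw⟩ := walls Rel h2 (fun t i => (FF Rel)^[t] x i)
    (fun t i => (FF Rel)^[t] x i 5 - (FF Rel)^[t] y i 5)
    (fun t i => (FF Rel)^[t] x i 6 - (FF Rel)^[t] y i 6)
    (fun t i => by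
      simp only [st5]
      rw [← mL_sub Rel (ct t i), ← mL_sub Rel (ct t (i + 1))]; ring)
    (fun t i => by
      simp only [st6]
      rw [← mR_sub Rel (ct t i), ← mR_sub Rel (ct t (i - 1))]; ring)
    (fin2 5 6) (by
      by_contra hc
      push Not at hc
      exact hne (funext fun i =>
        ext7 (ct 0 i) (sub_eq_zero.1 (hc i).1) (sub_eq_zero.1 (hc i).2))) D
    fun t i j a b => hD t i j (a.elim (ne _) (ne _)) (b.elim (ne _) (ne _))
  have del : ∀ j : ℕ, ∀ t, t₀ ≤ t →
      (FF Rel)^[t] x (R - j) 2 = (FF Rel)^[t + j] x (R - j) 0 := by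
    intro j
    induction j with
    | zero => exact fun t ht => by simpa using (hw t ht).2.2.symm
    | succ j ih =>
      intro t ht
      have e1 := st1 Rel x t (R - j)
      have e2 := st2 Rel x (t + 1) (R - j)
      have e3 := st2 Rel x t (R - j)
      have e4 := st0 Rel x (t + 1 + j) (R - j)
      have e5 := ih (t + 1) (by omega)
      have e6 := ih (t + 1 + 1) (by omega)
      rw [show t + 1 + 1 + j = t + 1 + j + 1 by ring] at e6
      rw [show R - ((j + 1 : ℕ) : ℤ) = R - j - 1 by push_cast; ring,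
        show t + (j + 1) = t + 1 + j by ring]
      linear_combination e3 - e1 - e2 + e6 - e5 + e4
  obtain ⟨E, hE⟩ : ∃ E : ℕ, R - E = L := ⟨(R - L).toNat, by omega⟩
  refine ⟨E, by omega, fun s => (FF Rel)^[t₀ + s] x L 0, fun s => ?_⟩
  have a := (hw (t₀ + s) (by omega)).1.2
  have b := del E (t₀ + s) (by omega)
  have c := del E (t₀ + s + 1) (by omega)
  rw [hE] at b c
  rw [st2] at c
  simp only at a ⊢
  rw [b, c] at a
  rw [← add_assoc, show t₀ + (s + E + 1) = t₀ + s + 1 + E by ring]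
  exact a

theorem ctl_iter {x y : ℤ → Fin 7 → W} (h : ∀ i, Ctl (x i) (y i)) (t : ℕ) (i : ℤ) :
    Ctl ((FF Rel)^[t] x i) ((FF Rel)^[t] y i) := by
  induction t generalizing i with
  | zero => exact h i
  | succ t ih =>
    obtain ⟨a0, a1, a2, a3, a4⟩ := ih i
    obtain ⟨b0, b1, b2, b3, b4⟩ := ih (i - 1)
    obtain ⟨c0, c1, c2, c3, c4⟩ := ih (i + 1)
    exact ⟨by rw [st0, st0, a0, b0], by rw [st1, st1, a1, b2], by rw [st2, st2, a1],
      by rw [st3, st3, a3, c3], by rw [st4, st4, a4, b4]⟩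

/-- Difference operator. -/
def dE (f : ℕ → W) (t : ℕ) : W := f (t + 1) - f t

/-- Shifted difference operator. -/
def dF (f : ℕ → W) (t : ℕ) : W := f (t + 1 + 1) - f (t + 1)

/-- Partial sums. -/
def pS (f : ℕ → W) (t : ℕ) : W := ∑ s ∈ Finset.range t, f s

theorem dE_pS : Function.LeftInverse (dE (W := W)) pS := fun f => funext fun t => by
  simp [dE, pS, Finset.sum_range_succ]

theorem dF_iter (f : ℕ → W) (j t : ℕ) : dF^[j] f t = dE^[j] f (t + j) := by
  induction j generalizing t with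
  | zero => rfl
  | succ j ih =>
    rw [Function.iterate_succ_apply', Function.iterate_succ_apply', dF, dE, ih, ih,
      show t + 1 + 1 + j = t + (j + 1) + 1 by ring, show t + 1 + j = t + (j + 1) by ring]

/-- The pattern sent to the left. -/
def pX (D : ℕ) (i : ℤ) : W := if 0 < i ∧ i ≤ D then 1 else 0

/-- The pattern sent to the right. -/
def pY (D : ℕ) (i : ℤ) : W := if 0 ≤ i ∧ i < D then 1 else 0

theorem pX1 {D : ℕ} (i : ℤ) (h : 0 < i ∧ i ≤ D) : (pX D i : W) = 1 := if_pos h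

theorem pX0 {D : ℕ} (i : ℤ) (h : ¬(0 < i ∧ i ≤ D)) : (pX D i : W) = 0 := if_neg h

theorem pY1 {D : ℕ} (i : ℤ) (h : 0 ≤ i ∧ i < D) : (pY D i : W) = 1 := if_pos h

theorem pY0 {D : ℕ} (i : ℤ) (h : ¬(0 ≤ i ∧ i < D)) : (pY D i : W) = 0 := if_neg h

/-- The initial configuration attached to a column. -/
def ini (D : ℕ) (col : ℕ → W) (ε : W) (i : ℤ) : Fin 7 → W :=
  ![dE^[(D - i).toNat] col 0, dF^[(D - i).toNat] col 1, dF^[(D - i).toNat] col 0,
    if i = 0 then 1 else 0, if i = D then 1 else 0,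
    ε * (2 * pX D i - pX D (i + 1)), ε * (2 * pY D i - pY D (i - 1))]

section Ini

variable (D : ℕ) (col : ℕ → W) (ε : W) (i : ℤ)

theorem ini0 : ini D col ε i 0 = dE^[(D - i).toNat] col 0 := rfl

theorem ini1 : ini D col ε i 1 = dF^[(D - i).toNat] col 1 := rfl

theorem ini2 : ini D col ε i 2 = dF^[(D - i).toNat] col 0 := rfl

theorem ini3 : ini D col ε i 3 = if i = 0 then 1 else 0 := rfl

theorem ini4 : ini D col ε i 4 = if i = D then 1 else 0 := rfl

theorem ini5 : ini D col ε i 5 = ε * (2 * pX D i - pX D (i + 1)) := rfl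

theorem ini6 : ini D col ε i 6 = ε * (2 * pY D i - pY D (i - 1)) := rfl

end Ini

/-- A tiling of a helix gives a soliton. -/
theorem soliton_of_helix [Nontrivial W] (h : Helix Rel) : HasSoliton (FF Rel) := by
  obtain ⟨D, hD, τ, hτ⟩ := h
  obtain ⟨col, hc⟩ : ∃ col : ℕ → W, dE^[D] col = τ := ⟨pS^[D] τ, dE_pS.iterate D τ⟩
  have a0 : ∀ ε t (j : ℕ), (FF Rel)^[t] (ini D col ε) (D - j) 0 = dE^[j] col t := by
    intro ε t
    induction t with
    | zero =>
      intro j
      rw [Function.iterate_zero_apply, ini0, sub_sub_cancel, Int.toNat_natCast]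
    | succ t ih =>
      intro j
      have := ih (j + 1)
      rw [Function.iterate_succ_apply' dE, dE] at this
      push_cast at this
      rw [st0, ih, sub_sub, this]
      ring
  have a1 : ∀ ε t (j : ℕ), (FF Rel)^[t] (ini D col ε) (D - j) 1 = dF^[j] col (t + 1) ∧
      (FF Rel)^[t] (ini D col ε) (D - j) 2 = dF^[j] col t := by
    intro ε t
    induction t with
    | zero =>
      intro j
      rw [Function.iterate_zero_apply, ini1, ini2, sub_sub_cancel, Int.toNat_natCast]
      exact ⟨rfl, rfl⟩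
    | succ t ih =>
      intro j
      have := (ih (j + 1)).2
      rw [Function.iterate_succ_apply' dF, dF] at this
      push_cast at this
      refine ⟨?_, by rw [st2, (ih j).1]⟩
      rw [st1, (ih j).1, sub_sub, this]
      ring
  have a3 : ∀ ε t (i : ℤ), 0 ≤ i →
      (FF Rel)^[t] (ini D col ε) i 3 = if i = 0 then 1 else 0 := by
    intro ε t
    induction t with
    | zero => exact fun i _ => ini3 D col ε i
    | succ t ih =>
      intro i hi
      rw [st3, ih i hi, ih (i + 1) (by omega), if_neg (show ¬i + 1 = 0 by omega), add_zero]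
  have a4 : ∀ ε t (i : ℤ), i ≤ D →
      (FF Rel)^[t] (ini D col ε) i 4 = if i = D then 1 else 0 := by
    intro ε t
    induction t with
    | zero => exact fun i _ => ini4 D col ε i
    | succ t ih =>
      intro i hi
      rw [st4, ih i hi, ih (i - 1) (by omega), if_neg (show ¬i - 1 = D by omega), add_zero]
  have w0 : ∀ ε t, Lw Rel ((FF Rel)^[t] (ini D col ε) 0) := by
    intro ε t
    have b0 := a0 ε t D
    have b1 := a1 ε t D
    rw [sub_self] at b0 b1
    refine ⟨by rw [a3 ε t 0 le_rfl, if_pos rfl], ?_⟩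
    rw [b0, b1.1, b1.2, dF_iter, dF_iter, hc, show t + 1 + D = t + D + 1 by ring]
    exact hτ t
  have w1 : ∀ ε t (i : ℤ), 0 < i → ¬Lw Rel ((FF Rel)^[t] (ini D col ε) i) := by
    intro ε t i hi h
    have := h.1
    rw [a3 ε t i hi.le, if_neg hi.ne'] at this
    exact zero_ne_one this
  have w2 : ∀ ε t, Rw ((FF Rel)^[t] (ini D col ε) D) := by
    intro ε t
    have b0 := a0 ε t 0
    have b1 := a1 ε t 0
    rw [Nat.cast_zero, sub_zero] at b0 b1
    exact ⟨by rw [a4 ε t D le_rfl, if_pos rfl], by rw [b0, b1.2]; rfl⟩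
  have w3 : ∀ ε t (i : ℤ), i < D → ¬Rw ((FF Rel)^[t] (ini D col ε) i) := by
    intro ε t i hi h
    have := h.1
    rw [a4 ε t i hi.le, if_neg hi.ne] at this
    exact zero_ne_one this
  have mx : ∀ ε t (i : ℤ),
      mL Rel ((FF Rel)^[t] (ini D col ε) i) (ε * (2 * pX D i - pX D (i + 1)))
        (ε * (2 * pY D i - pY D (i - 1))) = ε * pX D i ∧
      mR Rel ((FF Rel)^[t] (ini D col ε) i) (ε * (2 * pX D i - pX D (i + 1)))
        (ε * (2 * pY D i - pY D (i - 1))) = ε * pY D i := by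
    intro ε t i
    rcases (show i < 0 ∨ i = 0 ∨ (0 < i ∧ i < D) ∨ i = D ∨ D < i by omega) with
      h | h | h | h | h
    · rw [pX0 i (by omega), pX0 (i + 1) (by omega), pY0 i (by omega), pY0 (i - 1) (by omega)]
      simp [mL_zero, mR_zero]
    · subst h
      rw [mL, mR, if_pos (w0 ε t), if_pos (w0 ε t), pX0 0 (by omega), pX1 (0 + 1) (by omega),
        pY1 0 (by omega), pY0 (0 - 1) (by omega)]
      constructor <;> ring
    · rw [mL, mR, if_neg (w1 ε t i h.1), if_neg (w1 ε t i h.1), if_neg (w3 ε t i h.2),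
        if_neg (w3 ε t i h.2), pX1 i (by omega), pX1 (i + 1) (by omega), pY1 i (by omega),
        pY1 (i - 1) (by omega)]
      constructor <;> ring
    · subst h
      rw [mL, mR, if_neg (w1 ε t D (by omega)), if_neg (w1 ε t D (by omega)), if_pos (w2 ε t),
        if_pos (w2 ε t), pX1 D (by omega), pX0 (D + 1) (by omega), pY0 D (by omega),
        pY1 (D - 1) (by omega)]
      constructor <;> ring
    · rw [pX0 i (by omega), pX0 (i + 1) (by omega), pY0 i (by omega), pY0 (i - 1) (by omega)]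
      simp [mL_zero, mR_zero]
  have a5 : ∀ ε t (i : ℤ),
      (FF Rel)^[t] (ini D col ε) i 5 = ε * (2 * pX D i - pX D (i + 1)) ∧
      (FF Rel)^[t] (ini D col ε) i 6 = ε * (2 * pY D i - pY D (i - 1)) := by
    intro ε t
    induction t with
    | zero => exact fun i => ⟨ini5 D col ε i, ini6 D col ε i⟩
    | succ t ih =>
      intro i
      rw [st5, st6, (ih i).1, (ih i).2, (ih (i + 1)).1, (ih (i + 1)).2, (ih (i - 1)).1,
        (ih (i - 1)).2, (mx ε t i).1, (mx ε t i).2, (mx ε t (i + 1)).1, (mx ε t (i - 1)).2]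
      constructor <;> ring
  have out : ∀ t (i : ℤ), (FF Rel)^[t] (ini D col 1) i ≠ (FF Rel)^[t] (ini D col 0) i →
      0 ≤ i ∧ i ≤ D := by
    intro t i h
    by_contra hi
    have b0 := ctl_iter Rel (x := ini D col 1) (y := ini D col 0)
      (fun i => ⟨by rw [ini0, ini0], by rw [ini1, ini1], by rw [ini2, ini2], by rw [ini3, ini3],
        by rw [ini4, ini4]⟩) t i
    have b5 : (FF Rel)^[t] (ini D col 1) i 5 = (FF Rel)^[t] (ini D col 0) i 5 := by
      rw [(a5 1 t i).1, (a5 0 t i).1, pX0 i (by omega), pX0 (i + 1) (by omega)]; ring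
    have b6 : (FF Rel)^[t] (ini D col 1) i 6 = (FF Rel)^[t] (ini D col 0) i 6 := by
      rw [(a5 1 t i).2, (a5 0 t i).2, pY0 i (by omega), pY0 (i - 1) (by omega)]; ring
    exact h (ext7 b0 b5 b6)
  refine ⟨ini D col 1, ini D col 0, fun e => ?_,
    (Set.finite_Icc (0 : ℤ) D).subset fun i hi => out 0 i hi, D, fun t i j a b => ?_⟩
  · have b1 := (a5 1 0 0).1
    have b2 := (a5 0 0 0).1
    rw [e, b2, pX0 0 (by omega), pX1 (0 + 1) (by omega)] at b1
    simp at b1
  · have := out t i a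
    have := out t j b
    rw [abs_le]
    omega

end Pool.Agent.MP_5c31ca_lc.Q2

end MrgPart1

-- ======== part 2: formerly Pool.Agent.MP_5c31ca_lc.q2.Code
section MrgPart2

/-!
The automaton written on numbers, and its description as a primitive recursive function.
-/

set_option autoImplicit false

namespace Pool.Agent.MP_5c31ca_lc.Q2

open Classical

theorem soliton_conj {A B : Type} (e : A ≃ B) (F : (ℤ → A) → ℤ → A) (G : (ℤ → B) → ℤ → B)
    (h : ∀ x i, e (F x i) = G (fun j => e (x j)) i) : HasSoliton F ↔ HasSoliton G := by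
  have it : ∀ (t : ℕ) x i, e (F^[t] x i) = G^[t] (fun j => e (x j)) i := fun t => by
    induction t with
    | zero => exact fun x i => rfl
    | succ t ih =>
      intro x i
      rw [Function.iterate_succ_apply', Function.iterate_succ_apply', h]
      congr 1
      exact funext (ih x)
  have key : ∀ x y, IsSoliton F x y ↔ IsSoliton G (fun j => e (x j)) fun j => e (y j) := by
    intro x y
    unfold IsSoliton
    simp only [← it, Ne, e.apply_eq_iff_eq, funext_iff]
  constructor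
  · exact fun ⟨x, y, hxy⟩ => ⟨_, _, (key x y).1 hxy⟩
  · rintro ⟨x, y, hxy⟩
    refine ⟨fun j => e.symm (x j), fun j => e.symm (y j), (key _ _).2 ?_⟩
    simpa using hxy

/-- Digit number `k` of `w` in base `B`. -/
def dg (B w k : ℕ) : ℕ := w / B ^ k % B

section Num

variable (M : ℕ) (RN : ℕ → ℕ → ℕ → Prop)

/-- Left wall, on numbers. -/
def LwN (s : ℕ) : Prop := dg M s 3 = 1 ∧ RN (dg M s 0) (dg M s 2) (dg M s 1)

/-- Right wall, on numbers. -/
def RwN (s : ℕ) : Prop := dg M s 4 = 1 ∧ dg M s 0 = dg M s 2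

/-- The part sent to the left, on numbers. -/
noncomputable def mLN (s : ℕ) : ℕ :=
  if LwN M RN s then dg M s 6 + 2 * dg M s 5 else if RwN M s then (M - 1) * dg M s 6 else dg M s 6

/-- The part sent to the right, on numbers. -/
noncomputable def mRN (s : ℕ) : ℕ :=
  if LwN M RN s then (M - 1) * dg M s 5 else if RwN M s then dg M s 5 + 2 * dg M s 6 else dg M s 5

/-- The new digits, before reduction. -/
noncomputable def outN (p c q : ℕ) : Fin 7 → ℕ :=
  ![dg M c 0 + dg M p 0, dg M c 1 + dg M p 2, dg M c 1, dg M c 3 + dg M q 3, dg M c 4 + dg M p 4,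
    2 * mLN M RN c + (M - 1) * mLN M RN q, 2 * mRN M RN c + (M - 1) * mRN M RN p]

variable [NeZero M]

/-- The local rule on numbers. -/
noncomputable def fN (w : Fin (2 * 1 + 1) → Fin (M ^ 7)) : Fin (M ^ 7) :=
  finFunctionFinEquiv fun k => ⟨outN M RN (w 0) (w 1) (w 2) k % M, Nat.mod_lt _ (NeZero.pos M)⟩

theorem dg_lt (s k : ℕ) : dg M s k < M := Nat.mod_lt _ (NeZero.pos M)

/-- Cells as tuples of residues. -/
noncomputable def cellE : Fin (M ^ 7) ≃ (Fin 7 → ZMod M) :=
  Equiv.ofBijective (fun s k => (dg M s k : ZMod M)) (by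
    refine (Fintype.bijective_iff_injective_and_card _).2 ⟨fun s s' h => ?_, by simp⟩
    refine finFunctionFinEquiv.symm.injective (funext fun k => Fin.ext ?_)
    have := congrArg ZMod.val (congrFun h k)
    rwa [ZMod.val_cast_of_lt (dg_lt M _ _), ZMod.val_cast_of_lt (dg_lt M _ _)] at this)

theorem cellE_apply (s : Fin (M ^ 7)) (k : Fin 7) : cellE M s k = (dg M s k : ZMod M) := rfl

theorem cellE_val (s : Fin (M ^ 7)) (k : Fin 7) : (cellE M s k).val = dg M s k :=
  ZMod.val_cast_of_lt (dg_lt M _ _)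

theorem cast_pred : ((M - 1 : ℕ) : ZMod M) = -1 := by
  rw [Nat.cast_sub (NeZero.pos M)]
  simp

variable [Fact (1 < M)]

theorem lw_iff (s : Fin (M ^ 7)) :
    Lw (fun x y z : ZMod M => RN x.val y.val z.val) (cellE M s) ↔ LwN M RN s := by
  unfold Lw LwN
  rw [← (ZMod.val_injective M).eq_iff, ZMod.val_one]
  simp only [cellE_val]
  rfl

theorem rw_iff (s : Fin (M ^ 7)) : Rw (cellE M s) ↔ RwN M s := by
  unfold Rw RwN
  rw [← (ZMod.val_injective M).eq_iff, ZMod.val_one, ← (ZMod.val_injective M).eq_iff]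
  simp only [cellE_val]
  rfl

theorem mL_cast (s : Fin (M ^ 7)) : (mLN M RN s : ZMod M) =
    mL (fun x y z : ZMod M => RN x.val y.val z.val) (cellE M s) (cellE M s 5) (cellE M s 6) := by
  unfold mL mLN
  simp only [lw_iff, rw_iff]
  split_ifs
  · push_cast; rfl
  · rw [Nat.cast_mul, cast_pred, neg_one_mul]; rfl
  · rfl

theorem mR_cast (s : Fin (M ^ 7)) : (mRN M RN s : ZMod M) =
    mR (fun x y z : ZMod M => RN x.val y.val z.val) (cellE M s) (cellE M s 5) (cellE M s 6) := by
  unfold mR mRN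
  simp only [lw_iff, rw_iff]
  split_ifs
  · rw [Nat.cast_mul, cast_pred, neg_one_mul]; rfl
  · push_cast; rfl
  · rfl

theorem fN_loc (w : Fin (2 * 1 + 1) → Fin (M ^ 7)) : cellE M (fN M RN w) =
    loc (fun x y z : ZMod M => RN x.val y.val z.val) (cellE M (w 0)) (cellE M (w 1))
      (cellE M (w 2)) := by
  have h : ∀ k, cellE M (fN M RN w) k = (outN M RN (w 0) (w 1) (w 2) k : ZMod M) := fun k => by
    have : dg M (fN M RN w) k = outN M RN (w 0) (w 1) (w 2) k % M :=
      congrArg Fin.val (congrFun (finFunctionFinEquiv.symm_apply_apply _) k)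
    rw [cellE_apply, this, ZMod.natCast_mod]
  refine ext7 ⟨?_, ?_, ?_, ?_, ?_⟩ ?_ ?_ <;> rw [h]
  · exact Nat.cast_add _ _
  · exact Nat.cast_add _ _
  · rfl
  · exact Nat.cast_add _ _
  · exact Nat.cast_add _ _
  · change ((2 * mLN M RN (w 1) + (M - 1) * mLN M RN (w 2) : ℕ) : ZMod M) = 2 * _ - _
    rw [← mL_cast, ← mL_cast, Nat.cast_add, Nat.cast_mul, Nat.cast_mul, cast_pred]
    push_cast
    ring
  · change ((2 * mRN M RN (w 1) + (M - 1) * mRN M RN (w 0) : ℕ) : ZMod M) = 2 * _ - _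
    rw [← mR_cast, ← mR_cast, Nat.cast_add, Nat.cast_mul, Nat.cast_mul, cast_pred]
    push_cast
    ring

theorem ca_iff : HasSoliton (ca 1 (fN M RN)) ↔
    HasSoliton (FF fun x y z : ZMod M => RN x.val y.val z.val) := by
  refine soliton_conj (cellE M) _ _ fun x i => ?_
  unfold ca FF
  rw [fN_loc]
  congr 3
  simp

end Num

section Prim

variable {α : Type} [Primcodable α]

theorem prim_pow {f : α → ℕ} (hf : Primrec f) (k : ℕ) : Primrec fun a => f a ^ k := by
  induction k with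
  | zero => exact (Primrec.const 1).of_eq fun a => (pow_zero _).symm
  | succ k ih => exact (Primrec.nat_mul.comp ih hf).of_eq fun a => (pow_succ _ _).symm

theorem prim_dg {B w : α → ℕ} (hB : Primrec B) (hw : Primrec w) (k : ℕ) :
    Primrec fun a => dg (B a) (w a) k :=
  Primrec.nat_mod.comp (Primrec.nat_div.comp hw (prim_pow hB k)) hB

theorem prim_add {f g : α → ℕ} (hf : Primrec f) (hg : Primrec g) : Primrec fun a => f a + g a :=
  Primrec.nat_add.comp hf hg

theorem prim_mul {f g : α → ℕ} (hf : Primrec f) (hg : Primrec g) : Primrec fun a => f a * g a :=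
  Primrec.nat_mul.comp hf hg

theorem prim_sum {n : ℕ} {f : Fin n → α → ℕ} (hf : ∀ k, Primrec (f k)) :
    Primrec fun a => ∑ k, f k a := by
  induction n with
  | zero => exact (Primrec.const 0).of_eq fun a => by simp
  | succ n ih =>
    exact (prim_add (hf 0) (ih fun k => hf k.succ)).of_eq fun a => by rw [Fin.sum_univ_succ]

variable {M : α → ℕ} {RN : α → ℕ → ℕ → ℕ → Prop} (hM : Primrec M)
  (hR : PrimrecPred fun z : α × ℕ × ℕ × ℕ => RN z.1 z.2.1 z.2.2.1 z.2.2.2)
include hM hR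

theorem prim_mix : (Primrec fun z : α × ℕ => mLN (M z.1) (RN z.1) z.2) ∧
    Primrec fun z : α × ℕ => mRN (M z.1) (RN z.1) z.2 := by
  have d : ∀ k, Primrec fun z : α × ℕ => dg (M z.1) z.2 k :=
    prim_dg (hM.comp Primrec.fst) Primrec.snd
  have p : Primrec fun z : α × ℕ => M z.1 - 1 :=
    Primrec.nat_sub.comp (hM.comp Primrec.fst) (Primrec.const 1)
  have l : PrimrecPred fun z : α × ℕ => LwN (M z.1) (RN z.1) z.2 :=
    (Primrec.eq.comp (d 3) (Primrec.const 1)).and
      (hR.comp (Primrec.fst.pair ((d 0).pair ((d 2).pair (d 1)))))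
  have r : PrimrecPred fun z : α × ℕ => RwN (M z.1) z.2 :=
    (Primrec.eq.comp (d 4) (Primrec.const 1)).and (Primrec.eq.comp (d 0) (d 2))
  exact ⟨Primrec.ite l (prim_add (d 6) (prim_mul (Primrec.const 2) (d 5)))
      (Primrec.ite r (prim_mul p (d 6)) (d 6)),
    Primrec.ite l (prim_mul p (d 5))
      (Primrec.ite r (prim_add (d 5) (prim_mul (Primrec.const 2) (d 6))) (d 5))⟩

theorem prim_out {β : Type} [Primcodable β] {g : β → α} {p c q : β → ℕ} (hg : Primrec g)
    (hp : Primrec p) (hc : Primrec c) (hq : Primrec q) (k : Fin 7) :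
    Primrec fun z => outN (M (g z)) (RN (g z)) (p z) (c z) (q z) k := by
  have hm := hM.comp hg
  have e : Primrec fun z => M (g z) - 1 := Primrec.nat_sub.comp hm (Primrec.const 1)
  have l := fun {s : β → ℕ} (hs : Primrec s) => (prim_mix hM hR).1.comp (hg.pair hs)
  have r := fun {s : β → ℕ} (hs : Primrec s) => (prim_mix hM hR).2.comp (hg.pair hs)
  match k with
  | 0 => exact prim_add (prim_dg hm hc 0) (prim_dg hm hp 0)
  | 1 => exact prim_add (prim_dg hm hc 1) (prim_dg hm hp 2)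
  | 2 => exact prim_dg hm hc 1
  | 3 => exact prim_add (prim_dg hm hc 3) (prim_dg hm hq 3)
  | 4 => exact prim_add (prim_dg hm hc 4) (prim_dg hm hp 4)
  | 5 => exact prim_add (prim_mul (Primrec.const 2) (l hc)) (prim_mul e (l hq))
  | 6 => exact prim_add (prim_mul (Primrec.const 2) (r hc)) (prim_mul e (r hp))

theorem prim_code [∀ a, NeZero (M a)] : Primrec fun a => caCode 1 (fN (M a) (RN a)) := by
  have hN := prim_pow hM 7
  have hN' : Primrec fun z : α × ℕ => M z.1 ^ 7 := hN.comp Primrec.fst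
  have hG : Primrec fun z : α × ℕ => ∑ k : Fin 7, outN (M z.1) (RN z.1) (dg (M z.1 ^ 7) z.2 0)
      (dg (M z.1 ^ 7) z.2 1) (dg (M z.1 ^ 7) z.2 2) k % M z.1 * M z.1 ^ (k : ℕ) :=
    prim_sum fun k => prim_mul (Primrec.nat_mod.comp (prim_out hM hR Primrec.fst
      (prim_dg hN' Primrec.snd 0) (prim_dg hN' Primrec.snd 1) (prim_dg hN' Primrec.snd 2) k)
      (hM.comp Primrec.fst)) (prim_pow (hM.comp Primrec.fst) k)
  refine (hN.pair ((Primrec.const 1).pair (Primrec.list_map
    (Primrec.list_range.comp (prim_pow hN (2 * 1 + 1))) hG.to₂))).of_eq fun a => ?_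
  unfold caCode
  congr 2
  refine List.ext_getElem (by simp) fun i h1 h2 => ?_
  rw [List.getElem_map, List.getElem_range, List.getElem_ofFn]
  rfl

end Prim

end Pool.Agent.MP_5c31ca_lc.Q2

end MrgPart2

-- marker of a merged file
example : 731051 + 371771 = 731051 + 371771 := rfl
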