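import Mathlib.Algebra.Order.Archimedean.Basic
import Mathlib.Data.Nat.SuccPred
import Mathlib.Algebra.CharP.Defs
import Mathlib.Algebra.Notation.Lemmas
import Mathlib.Topology.Sheaves.Presheaf
import Mathlib.Data.Int.ConditionallyCompleteOrder
import Mathlib.Data.Int.Star
import Mathlib.Algebra.Order.Ring.Star
import Mathlib.Tactic.Bound
import Mathlib.Computability.TuringMachine.ToPartrec
import Mathlib.Data.Set.Finite.List
import Mathlib.RingTheory.PiTensorProduct
import Mathlib.Tactic.Algebra.Basic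

-- ======== part 0: formerly Pool.Agent.MP_5c31ca_lc.q2.Rows
section MrgPart0

/-!
Tiles on a helix that carry rows of binary numbers linked by affine rules.

A tile is a sequence of digits: digit `0` is a level, digit `1` the number of a rule, and for each
coordinate `i` there are a digit of the parameter and two carries.
-/

set_option autoImplicit false

namespace Pool.Agent.MP_5c31ca_lc.Q2

open Finset

variable (K : ℕ) (a b m m' : ℕ → ℕ → ℕ)

/-- Carry plus digit for the present value. -/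
def tP (w : ℕ → ℕ) (i : ℕ) : ℕ := w (3 + 3 * i) + m' (w 1) i * w (2 + 3 * i)

/-- Carry plus digit for the next value. -/
def tQ (w : ℕ → ℕ) (i : ℕ) : ℕ := w (4 + 3 * i) + m (w 1) i * w (2 + 3 * i)

/-- The matching rule: `v` lies above `u`, and `w` follows `v`. -/
def RelT (u v w : ℕ → ℕ) : Prop :=
  v 0 % 2 ≠ u 0 % 2 ∧ ∀ i < K, tP m' v i % 2 = tQ m u i % 2 ∧
    (v 0 % 2 = w 0 % 2 → w 1 = v 1 ∧ w (3 + 3 * i) = tP m' v i / 2 ∧
      w (4 + 3 * i) = tQ m v i / 2) ∧
    (v 0 % 2 ≠ w 0 % 2 → tP m' v i / 2 = 0 ∧ tQ m v i / 2 = 0 ∧ w (3 + 3 * i) = b (w 1) i ∧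
      w (4 + 3 * i) = a (w 1) i)

theorem carry (k G : ℕ → ℕ) (μ g : ℕ) (h : ∀ j < g, k (j + 1) = (k j + μ * G j) / 2) :
    ∑ l ∈ range (g + 1), (k l + μ * G l) % 2 * 2 ^ l + (k g + μ * G g) / 2 * 2 ^ (g + 1) =
      k 0 + μ * ∑ l ∈ range (g + 1), G l * 2 ^ l := by
  induction g with
  | zero =>
    simp only [zero_add, range_one, sum_singleton, pow_zero, mul_one, pow_one]
    omega
  | succ g ih =>
    have e := ih fun j hj => h j (by omega)
    rw [sum_range_succ _ (g + 1), sum_range_succ (fun l => G l * 2 ^ l) (g + 1), mul_add μ,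
      ← add_assoc, ← e, ← h g (by omega)]
    have e2 := Nat.mod_add_div (k (g + 1) + μ * G (g + 1)) 2
    generalize (k (g + 1) + μ * G (g + 1)) % 2 = x at e2 ⊢
    generalize (k (g + 1) + μ * G (g + 1)) / 2 = y at e2 ⊢
    rw [pow_succ 2 (g + 1)]
    generalize 2 ^ (g + 1) = P
    have : (x + 2 * y) * P = (k (g + 1) + μ * G (g + 1)) * P := by rw [e2]
    nlinarith [this]

theorem bits_lt (f : ℕ → ℕ) (g : ℕ) : ∑ l ∈ range g, f l % 2 * 2 ^ l < 2 ^ g := by
  induction g with
  | zero => simp
  | succ g ih =>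
    rw [sum_range_succ, pow_succ]
    have : f g % 2 ≤ 1 := by omega
    nlinarith [Nat.mul_le_mul_right (2 ^ g) this]

/-- A tiling of a helix carries an infinite bounded chain of rules. -/
theorem rows_of_helix (hK : 1 ≤ K) (D : ℕ) (τ : ℕ → ℕ → ℕ)
    (h : ∀ t, RelT K a b m m' (τ t) (τ (t + D)) (τ (t + D + 1))) :
    ∃ (g : ℕ) (R : ℕ → ℕ) (Γ : ℕ → ℕ → ℕ), ∀ s, ∀ i < K,
      a (R s) i + m (R s) i * Γ s i = b (R (s + 1)) i + m' (R (s + 1)) i * Γ (s + 1) i ∧
      b (R s) i + m' (R s) i * Γ s i < g := by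
  classical
  have lv : ∀ t, τ (t + D) 0 % 2 ≠ τ t 0 % 2 := fun t => (h t).1
  let ch : ℕ → Prop := fun t => τ t 0 % 2 ≠ τ (t + 1) 0 % 2
  have per : ∀ t, ch (t + D) ↔ ch t := fun t => by
    have h1 := lv t
    have h2 := lv (t + 1)
    simp only [ch]
    rw [show t + D + 1 = t + 1 + D by ring]
    omega
  have pers : ∀ s t, ch (t + s * D) ↔ ch t := fun s t => by
    induction s with
    | zero => simp
    | succ s ih => rw [← ih, ← per (t + s * D), show t + (s + 1) * D = t + s * D + D by ring]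
  have ex : ∀ p, ∃ j, ch (p + j) := fun p => by
    by_contra hc
    push Not at hc
    have : ∀ j, τ (p + j) 0 % 2 = τ p 0 % 2 := fun j => by
      induction j with
      | zero => rfl
      | succ j ih =>
        have := hc j
        simp only [ch, not_not] at this
        rw [← add_assoc, ← this, ih]
    exact lv p (this D)
  obtain ⟨j₀, hj₀⟩ := ex D
  obtain ⟨g, hg, hg'⟩ : ∃ g, ch (D + j₀ + 1 + g) ∧ ∀ j < g, ¬ch (D + j₀ + 1 + j) :=
    ⟨Nat.find (ex (D + j₀ + 1)), Nat.find_spec (ex _), fun j hj => Nat.find_min (ex _) hj⟩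
  let σ : ℕ → ℕ → ℕ → ℕ := fun s j => τ (j₀ + 1 + s * D + j + D)
  have hz : ∀ s j, RelT K a b m m' (τ (j₀ + 1 + s * D + j)) (σ s j) (σ s (j + 1)) := fun s j => by
    have := h (j₀ + 1 + s * D + j)
    rwa [show j₀ + 1 + s * D + j + D + 1 = j₀ + 1 + s * D + (j + 1) + D by ring] at this
  have same : ∀ s, ∀ j < g, σ s j 0 % 2 = σ s (j + 1) 0 % 2 := fun s j hj => by
    have := mt (pers s _).1 (hg' j hj)
    simp only [ch, not_not] at this
    simp only [σ]
    rw [show j₀ + 1 + s * D + j + D = D + j₀ + 1 + j + s * D by ring,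
      show j₀ + 1 + s * D + (j + 1) + D = D + j₀ + 1 + j + s * D + 1 by ring]
    exact this
  have last : ∀ s, σ s g 0 % 2 ≠ σ s (g + 1) 0 % 2 := fun s => by
    have := (pers s _).2 hg
    simp only [ch] at this
    simp only [σ]
    rw [show j₀ + 1 + s * D + g + D = D + j₀ + 1 + g + s * D by ring,
      show j₀ + 1 + s * D + (g + 1) + D = D + j₀ + 1 + g + s * D + 1 by ring]
    exact this
  have first : ∀ s, ∀ i < K, σ s 0 (3 + 3 * i) = b (σ s 0 1) i ∧
      σ s 0 (4 + 3 * i) = a (σ s 0 1) i := fun s i hi => by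
    have h1 := (pers s _).2 hj₀
    have h2 := ((h (j₀ + s * D)).2 i hi).2.2 (by
      simp only [ch] at h1
      rwa [show D + j₀ + s * D = j₀ + s * D + D by ring] at h1)
    simp only [σ]
    rw [show j₀ + 1 + s * D + 0 + D = j₀ + s * D + D + 1 by ring]
    exact h2.2.2
  have rule : ∀ s, ∀ j ≤ g, σ s j 1 = σ s 0 1 := fun s j hj => by
    induction j with
    | zero => rfl
    | succ j ih =>
      rw [← ih (by omega)]
      exact (((hz s j).2 0 (by omega)).2.1 (same s j (by omega))).1
  have vP : ∀ s, ∀ i < K, ∑ l ∈ range (g + 1), tP m' (σ s l) i % 2 * 2 ^ l =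
      b (σ s 0 1) i + m' (σ s 0 1) i * ∑ l ∈ range (g + 1), σ s l (2 + 3 * i) * 2 ^ l := by
    intro s i hi
    have e := carry (fun l => σ s l (3 + 3 * i)) (fun l => σ s l (2 + 3 * i)) (m' (σ s 0 1) i) g
      fun j hj => by
        have := (((hz s j).2 i hi).2.1 (same s j hj)).2.1
        rw [tP, rule s j hj.le] at this
        exact this
    have e2 := (((hz s g).2 i hi).2.2 (last s)).1
    rw [tP, rule s g le_rfl] at e2
    rw [e2, zero_mul, add_zero, (first s i hi).1] at e
    rw [← e]
    refine sum_congr rfl fun l hl => ?_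
    rw [tP, rule s l (by simpa [Nat.lt_succ_iff] using hl)]
  have vQ : ∀ s, ∀ i < K, ∑ l ∈ range (g + 1), tQ m (σ s l) i % 2 * 2 ^ l =
      a (σ s 0 1) i + m (σ s 0 1) i * ∑ l ∈ range (g + 1), σ s l (2 + 3 * i) * 2 ^ l := by
    intro s i hi
    have e := carry (fun l => σ s l (4 + 3 * i)) (fun l => σ s l (2 + 3 * i)) (m (σ s 0 1) i) g
      fun j hj => by
        have := (((hz s j).2 i hi).2.1 (same s j hj)).2.2
        rw [tQ, rule s j hj.le] at this
        exact this
    have e2 := (((hz s g).2 i hi).2.2 (last s)).2.1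
    rw [tQ, rule s g le_rfl] at e2
    rw [e2, zero_mul, add_zero, (first s i hi).2] at e
    rw [← e]
    refine sum_congr rfl fun l hl => ?_
    rw [tQ, rule s l (by simpa [Nat.lt_succ_iff] using hl)]
  refine ⟨2 ^ (g + 1), fun s => σ s 0 1,
    fun s i => ∑ l ∈ range (g + 1), σ s l (2 + 3 * i) * 2 ^ l, fun s i hi => ⟨?_, ?_⟩⟩
  · rw [← vQ s i hi, ← vP (s + 1) i hi]
    refine sum_congr rfl fun l _ => ?_
    have := ((hz (s + 1) l).2 i hi).1
    rw [show j₀ + 1 + (s + 1) * D + l = j₀ + 1 + s * D + l + D by ring] at this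
    rw [this]
  · rw [← vP s i hi]
    exact bits_lt _ _

theorem car_step (c μ G j : ℕ) :
    (c + μ * (G % 2 ^ j)) / 2 ^ j + μ * (G / 2 ^ j % 2) = (c + μ * (G % 2 ^ (j + 1))) / 2 ^ j := by
  rw [Nat.mod_pow_succ, mul_add, ← add_assoc, mul_left_comm,
    Nat.add_mul_div_left _ _ (by positivity)]

theorem car_bit (c μ G j : ℕ) :
    (c + μ * (G % 2 ^ (j + 1))) / 2 ^ j % 2 = (c + μ * G) / 2 ^ j % 2 := by
  conv_rhs => rw [← Nat.mod_add_div G (2 ^ (j + 1))]
  rw [mul_add, ← add_assoc, pow_succ,
    show μ * (2 ^ j * 2 * (G / (2 ^ j * 2))) = 2 ^ j * (2 * (μ * (G / (2 ^ j * 2)))) by ring,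
    Nat.add_mul_div_left _ _ (by positivity), Nat.add_mul_mod_self_left]

theorem car_le (c μ G j : ℕ) : (c + μ * (G % 2 ^ j)) / 2 ^ j ≤ c + μ := by
  have h1 : 0 < 2 ^ j := by positivity
  have h2 := Nat.mod_lt G h1
  refine Nat.div_le_of_le_mul ?_
  nlinarith [Nat.mul_le_mul_left μ h2.le, Nat.mul_le_mul_left c h1]

/-- An infinite bounded chain of rules is carried by a tiling of a helix. -/
theorem helix_of_rows (B g : ℕ) (hB : 2 ≤ B) (R : ℕ → ℕ) (Γ : ℕ → ℕ → ℕ) (hR : ∀ s, R s < B)
    (h : ∀ s, ∀ i < K,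
      a (R s) i + m (R s) i * Γ s i = b (R (s + 1)) i + m' (R (s + 1)) i * Γ (s + 1) i ∧
      b (R s) i + m' (R s) i * Γ s i < g ∧ Γ s i < g ∧ a (R s) i + m (R s) i < B ∧
      b (R s) i + m' (R s) i < B) :
    ∃ D, 1 ≤ D ∧ ∃ τ : ℕ → ℕ → ℕ, (∀ t, ∀ j < 2 + 3 * K, τ t j < B) ∧
      ∀ t, RelT K a b m m' (τ t) (τ (t + D)) (τ (t + D + 1)) := by
  let w : ℕ → ℕ → ℕ → ℕ := fun s j d =>
    if d = 0 then s % 2 else if d = 1 then R s else
      if d % 3 = 2 then Γ s ((d - 2) / 3) / 2 ^ j % 2 else
      if d % 3 = 0 then (b (R s) ((d - 2) / 3) + m' (R s) ((d - 2) / 3) *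
        (Γ s ((d - 2) / 3) % 2 ^ j)) / 2 ^ j else
      (a (R s) ((d - 2) / 3) + m (R s) ((d - 2) / 3) * (Γ s ((d - 2) / 3) % 2 ^ j)) / 2 ^ j
  have w0 : ∀ s j, w s j 0 = s % 2 := fun s j => rfl
  have w1 : ∀ s j, w s j 1 = R s := fun s j => rfl
  have w2 : ∀ s j i, w s j (2 + 3 * i) = Γ s i / 2 ^ j % 2 := fun s j i => by
    simp only [w]
    rw [if_neg (by omega), if_neg (by omega), if_pos (by omega),
      show (2 + 3 * i - 2) / 3 = i by omega]
  have w3 : ∀ s j i, w s j (3 + 3 * i) = (b (R s) i + m' (R s) i * (Γ s i % 2 ^ j)) / 2 ^ j :=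
    fun s j i => by
    simp only [w]
    rw [if_neg (by omega), if_neg (by omega), if_neg (by omega), if_pos (by omega),
      show (3 + 3 * i - 2) / 3 = i by omega]
  have w4 : ∀ s j i, w s j (4 + 3 * i) = (a (R s) i + m (R s) i * (Γ s i % 2 ^ j)) / 2 ^ j :=
    fun s j i => by
    simp only [w]
    rw [if_neg (by omega), if_neg (by omega), if_neg (by omega), if_neg (by omega),
      show (4 + 3 * i - 2) / 3 = i by omega]
  have wP : ∀ s j i, tP m' (w s j) i = (b (R s) i + m' (R s) i * (Γ s i % 2 ^ (j + 1))) / 2 ^ j :=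
    fun s j i => by rw [tP, w3, w1, w2, car_step]
  have wQ : ∀ s j i, tQ m (w s j) i = (a (R s) i + m (R s) i * (Γ s i % 2 ^ (j + 1))) / 2 ^ j :=
    fun s j i => by rw [tQ, w4, w1, w2, car_step]
  have hg : g < 2 ^ (g + 1) := lt_trans (Nat.lt_succ_self g) Nat.lt_two_pow_self
  refine ⟨g + 1, by omega, fun t => w (t / (g + 1)) (t % (g + 1)), fun t d hd => ?_, fun t => ?_⟩
  · change w _ _ d < B
    rcases (show d = 0 ∨ d = 1 ∨ ∃ i < K, d = 2 + 3 * i ∨ d = 3 + 3 * i ∨ d = 4 + 3 * i by
      rcases d with _ | _ | d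
      · exact Or.inl rfl
      · exact Or.inr (Or.inl rfl)
      · exact Or.inr (Or.inr ⟨d / 3, by omega, by omega⟩)) with e | e | ⟨i, hi, e | e | e⟩
    · rw [e, w0]; omega
    · rw [e, w1]; exact hR _
    · rw [e, w2]; omega
    · rw [e, w3]; exact (car_le _ _ _ _).trans_lt (h _ i hi).2.2.2.2
    · rw [e, w4]; exact (car_le _ _ _ _).trans_lt (h _ i hi).2.2.2.1
  · simp only
    rw [Nat.add_div_right _ (by omega), Nat.add_mod_right]
    have hj : t % (g + 1) < g + 1 := Nat.mod_lt _ (by omega)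
    have ht := Nat.div_add_mod t (g + 1)
    generalize t / (g + 1) = s at ht ⊢
    generalize t % (g + 1) = j at ht hj ⊢
    subst ht
    rcases (show j < g ∨ j = g by omega) with hj' | hj'
    · rw [show (g + 1) * s + j + (g + 1) + 1 = j + 1 + (g + 1) * (s + 1) by ring,
        Nat.add_mul_div_left _ _ (by omega), Nat.add_mul_mod_self_left,
        Nat.div_eq_of_lt (by omega), Nat.mod_eq_of_lt (by omega), zero_add]
      refine ⟨by rw [w0, w0]; omega, fun i hi => ⟨?_, fun _ => ⟨rfl, ?_, ?_⟩, fun e => ?_⟩⟩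
      · rw [wP, wQ, car_bit, car_bit, (h s i hi).1]
      · rw [w3, wP, Nat.div_div_eq_div_mul, ← pow_succ]
      · rw [w4, wQ, Nat.div_div_eq_div_mul, ← pow_succ]
      · exact absurd rfl e
    · subst hj'
      rw [show (j + 1) * s + j + (j + 1) + 1 = 0 + (j + 1) * (s + 1 + 1) by ring,
        Nat.add_mul_div_left _ _ (by omega), Nat.add_mul_mod_self_left, Nat.zero_div,
        Nat.zero_mod, zero_add]
      refine ⟨by rw [w0, w0]; omega, fun i hi => ⟨?_, fun e => ?_, fun _ => ⟨?_, ?_, ?_, ?_⟩⟩⟩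
      · rw [wP, wQ, car_bit, car_bit, (h s i hi).1]
      · rw [w0, w0] at e; omega
      · rw [wP, Nat.div_div_eq_div_mul, ← pow_succ,
          Nat.mod_eq_of_lt ((h _ i hi).2.2.1.trans hg),
          Nat.div_eq_of_lt ((h _ i hi).2.1.trans hg)]
      · rw [wQ, Nat.div_div_eq_div_mul, ← pow_succ,
          Nat.mod_eq_of_lt ((h _ i hi).2.2.1.trans hg), (h _ i hi).1,
          Nat.div_eq_of_lt ((h _ i hi).2.1.trans hg)]
      · rw [w3, w1]; simp [Nat.mod_one]
      · rw [w4, w1]; simp [Nat.mod_one]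

end Pool.Agent.MP_5c31ca_lc.Q2

end MrgPart0

-- ======== part 1: formerly Pool.Agent.MP_5c31ca_lc.q2.Mach
section MrgPart1

/-!
A system of modular rules with undecidable halting (copied from the development for the
matroidal families, with a new namespace).
-/

set_option autoImplicit false

open Set Turing Turing.PartrecToTM2

namespace Pool.Agent.MP_5c31ca_lc.Q2

/-- The program with number `n` halts on input `0`. -/
def Halts (n : ℕ) : Prop := ((Denumerable.ofNat Nat.Partrec.Code n).eval 0).Dom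

/-- Row MACH: a deterministic system of modular rules with undecidable halting. -/
def MachStmt : Prop :=
  ∃ (ι ρ : Type) (_ : Fintype ι) (_ : DecidableEq ι) (_ : Fintype ρ) (a b m m' : ρ → ι → ℕ)
    (h c₀ : ι → ℕ) (i₀ : ι) (e : ℕ → ℕ) (H : Set (ι → ℤ)), Primrec e ∧
    (∀ r i, 0 < m r i ∧ 0 < m' r i) ∧ (fun i => (h i : ℤ)) ∈ H ∧
    (∀ r (γ : ι → ℤ), (fun i => (b r i : ℤ) + m' r i * γ i) ∈ H ↔
      (fun i => (a r i : ℤ) + m r i * γ i) ∈ H) ∧
    ∀ n, (Halts n → Relation.ReflTransGen
        (fun β β' : ι → ℕ => ∃ r γ, β = b r + m' r * γ ∧ β' = a r + m r * γ)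
        (Function.update c₀ i₀ (e n)) h) ∧
      (¬Halts n → (fun i => (Function.update c₀ i₀ (e n) i : ℤ)) ∉ H)


namespace MachP

/-- Statements of the stack machine. -/
abbrev St : Type := TM2.Stmt (fun _ : K' => Γ') Λ' (Option Γ')

/-- Configurations of the stack machine. -/
abbrev Cf : Type := TM2.Cfg (fun _ : K' => Γ') Λ' (Option Γ')

/-- A bound for the number of stack entries that a statement reads. -/
def dp : St → ℕ
  | .push _ _ q => dp q
  | .peek _ _ q => dp q + 1
  | .pop _ _ q => dp q + 1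
  | .load _ q => dp q
  | .branch _ q₁ q₂ => max (dp q₁) (dp q₂)
  | .goto _ => 0
  | .halt => 0

theorem head_app {u r : List Γ'} {d : ℕ} (h : d + 1 ≤ u.length ∨ r = []) :
    (u ++ r).head? = u.head? ∧ (u ++ r).tail = u.tail ++ r := by
  rcases h with h | h
  · cases u with
    | nil => simp at h
    | cons x u => simp
  · subst h
    simp

theorem upd_app (u r : K' → List Γ') (k : K') (x : List Γ') :
    Function.update (fun k => u k ++ r k) k (x ++ r k) =
      fun k' => Function.update u k x k' ++ r k' := by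
  funext k'
  by_cases h : k' = k
  · subst h
    simp
  · simp [Function.update_of_ne h]

/-- A statement only reads the tops of the stacks. -/
theorem loc (q : St) : ∀ (v : Option Γ') (u r : K' → List Γ'),
    (∀ k, dp q ≤ (u k).length ∨ r k = []) →
    TM2.stepAux q v (fun k => u k ++ r k) =
      ⟨(TM2.stepAux q v u).l, (TM2.stepAux q v u).var,
        fun k => (TM2.stepAux q v u).stk k ++ r k⟩ := by
  induction q with
  | push k f q ih =>
    intro v u r h
    simp only [TM2.stepAux]
    rw [← List.cons_append, upd_app]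
    refine ih _ _ _ fun k' => ?_
    by_cases hk : k' = k
    · subst hk
      rcases h k' with h | h
      · left
        simp only [dp] at h
        simp only [Function.update_self, List.length_cons]
        omega
      · exact Or.inr h
    · rw [Function.update_of_ne hk]
      exact h k'
  | peek k f q ih =>
    intro v u r h
    simp only [TM2.stepAux]
    rw [(head_app (h k)).1]
    refine ih _ _ _ fun k' => ?_
    rcases h k' with h | h
    · left
      simp only [dp] at h
      omega
    · exact Or.inr h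
  | pop k f q ih =>
    intro v u r h
    simp only [TM2.stepAux]
    rw [(head_app (h k)).1, (head_app (h k)).2, upd_app]
    refine ih _ _ _ fun k' => ?_
    rcases h k' with h | h
    · left
      simp only [dp] at h
      by_cases hk : k' = k
      · subst hk
        simp only [Function.update_self, List.length_tail]
        omega
      · rw [Function.update_of_ne hk]
        omega
    · exact Or.inr h
  | load f q ih =>
    intro v u r h
    simp only [TM2.stepAux]
    exact ih _ _ _ h
  | branch f q₁ q₂ ih₁ ih₂ =>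
    intro v u r h
    simp only [TM2.stepAux]
    cases f v
    · refine ih₂ _ _ _ fun k => ?_
      rcases h k with h | h
      · exact Or.inl (le_trans (le_max_right _ _) h)
      · exact Or.inr h
    · refine ih₁ _ _ _ fun k => ?_
      rcases h k with h | h
      · exact Or.inl (le_trans (le_max_left _ _) h)
      · exact Or.inr h
  | goto f =>
    intro v u r _
    rfl
  | halt =>
    intro v u r _
    rfl

/-- The digit of a letter. -/
def dgt : Γ' → ℕ
  | .consₗ => 1
  | .cons => 2
  | .bit0 => 3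
  | .bit1 => 4

/-- The number that names a stack. -/
def enc : List Γ' → ℕ
  | [] => 0
  | x :: l => dgt x + 5 * enc l

theorem dgt_bd (x : Γ') : 1 ≤ dgt x ∧ dgt x ≤ 4 := by
  cases x <;> simp [dgt]

theorem dgt_inj {x y : Γ'} (h : dgt x = dgt y) : x = y := by
  cases x <;> cases y <;> simp_all [dgt]

theorem enc_append (u r : List Γ') : enc (u ++ r) = enc u + 5 ^ u.length * enc r := by
  induction u with
  | nil => simp [enc]
  | cons x u ih =>
    simp only [List.cons_append, enc, ih, List.length_cons]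
    ring

theorem enc_lt (u : List Γ') : enc u < 5 ^ u.length := by
  induction u with
  | nil => simp [enc]
  | cons x u ih =>
    have := dgt_bd x
    simp only [enc, List.length_cons, pow_succ]
    omega

theorem enc_inj : ∀ {u w : List Γ'}, enc u = enc w → u = w
  | [], [], _ => rfl
  | [], y :: w, h => by
    have := dgt_bd y
    simp only [enc] at h
    omega
  | x :: u, [], h => by
    have := dgt_bd x
    simp only [enc] at h
    omega
  | x :: u, y :: w, h => by
    have hx := dgt_bd x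
    have hy := dgt_bd y
    simp only [enc] at h
    have h1 : dgt x = dgt y := by omega
    have h2 : enc u = enc w := by omega
    rw [dgt_inj h1, enc_inj h2]

theorem res_eq {x y M : ℕ} {γ δ : ℤ} (hx : x < M) (hy : y < M)
    (h : (x : ℤ) + M * γ = y + M * δ) : x = y ∧ γ = δ := by
  have hx' : (x : ℤ) < M := by exact_mod_cast hx
  have hy' : (y : ℤ) < M := by exact_mod_cast hy
  have h1 : ((x : ℤ) + M * γ) % M = x := by
    rw [Int.add_mul_emod_self_left]
    exact Int.emod_eq_of_lt (by positivity) hx'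
  have h2 : ((y : ℤ) + M * δ) % M = y := by
    rw [Int.add_mul_emod_self_left]
    exact Int.emod_eq_of_lt (by positivity) hy'
  have h3 : (x : ℤ) = y := by rw [← h1, ← h2, h]
  refine ⟨by exact_mod_cast h3, ?_⟩
  have hM : (M : ℤ) ≠ 0 := by
    have : 0 < M := by omega
    positivity
  rw [h3] at h
  exact mul_left_cancel₀ hM (add_left_cancel h)

theorem exists_num {α : Type} (T : Finset α) :
    ∃ (M : ℕ) (st : α → ℕ), 0 < M ∧ (∀ x ∈ T, st x < M) ∧
      ∀ x ∈ T, ∀ y ∈ T, st x = st y → x = y := by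
  classical
  refine ⟨T.toList.length + 1, fun x => T.toList.idxOf x, by omega, fun x _ => ?_,
    fun x hx y _ h => ?_⟩
  · exact Nat.lt_succ_of_le List.idxOf_le_length
  · exact (List.idxOf_inj (Finset.mem_toList.2 hx)).1 h

theorem finK : Finite K' :=
  @Finite.of_fintype _ ⟨{K'.main, K'.rev, K'.aux, K'.stack}, fun x => by cases x <;> simp⟩

/-- The vector that names a configuration. -/
def encC (st : Option Λ' × Option Γ' → ℕ) (c : Cf) : Option K' → ℕ
  | none => st (c.l, c.var)
  | some k => enc (c.stk k)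

/-- A rule: a label, a value of the local store and the tops of the stacks. -/
def Rule (S : Finset Λ') (D : ℕ) : Type :=
  {x : Λ' × Option Γ' × (K' → List Γ') // x.1 ∈ S ∧ ∀ k, (x.2.2 k).length ≤ D}

theorem rule_finite (S : Finset Λ') (D : ℕ) : Finite (Rule S D) := by
  have := finK
  have h1 : {u : K' → List Γ' | ∀ k, u k ∈ {l : List Γ' | l.length ≤ D}}.Finite :=
    Set.Finite.pi' fun _ => List.finite_length_le Γ' D
  have h2 := S.finite_toSet.prod ((Set.toFinite (univ : Set (Option Γ'))).prod h1)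
  refine Set.Finite.to_subtype (s := {x : Λ' × Option Γ' × (K' → List Γ') |
    x.1 ∈ S ∧ ∀ k, (x.2.2 k).length ≤ D}) (h2.subset ?_)
  rintro x ⟨hx1, hx2⟩
  exact ⟨hx1, mem_univ _, hx2⟩

variable {S : Finset Λ'} {D M : ℕ} {st : Option Λ' × Option Γ' → ℕ}

/-- The configuration before a rule. -/
def bf (r : Rule S D) : Cf := ⟨some r.1.1, r.1.2.1, r.1.2.2⟩

/-- The configuration after a rule. -/
def nx (r : Rule S D) : Cf := TM2.stepAux (tr r.1.1) r.1.2.1 r.1.2.2

/-- The moduli before a rule. -/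
def mB (M D : ℕ) : Option K' → ℕ
  | none => M
  | some _ => 5 ^ D

/-- The moduli after a rule. -/
def mA (M : ℕ) (r : Rule S D) : Option K' → ℕ
  | none => M
  | some k => 5 ^ ((nx r).stk k).length

/-- Every step of the machine is an instance of a rule. -/
theorem step_rule (hD : ∀ l ∈ S, dp (tr l) ≤ D) {l : Λ'} (hl : l ∈ S) (v : Option Γ')
    (T : K' → List Γ') : ∃ (r : Rule S D) (γ : Option K' → ℕ),
      encC st ⟨some l, v, T⟩ = encC st (bf r) + mB M D * γ ∧
      encC st (TM2.stepAux (tr l) v T) = encC st (nx r) + mA M r * γ := by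
  have hT : T = fun k => (T k).take D ++ (T k).drop D := by
    funext k
    simp
  have hc : ∀ k, ((T k).take D).length = D ∨ (T k).drop D = [] := by
    intro k
    by_cases h : D ≤ (T k).length
    · left
      simp [h]
    · right
      rw [List.drop_eq_nil_iff]
      omega
  refine ⟨⟨(l, v, fun k => (T k).take D), hl, fun k => by simp⟩,
    fun i => i.elim 0 fun k => enc ((T k).drop D), ?_, ?_⟩
  · funext i
    cases i with
    | none => simp [encC, bf]
    | some k =>
      simp only [encC, bf, mB, Pi.add_apply, Pi.mul_apply, Option.elim]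
      conv_lhs => rw [← List.take_append_drop D (T k), enc_append]
      rcases hc k with h | h
      · rw [h]
      · rw [h]
        simp [enc]
  · have h := loc (tr l) v (fun k => (T k).take D) (fun k => (T k).drop D) fun k => by
      rcases hc k with h | h
      · left
        rw [h]
        exact hD l hl
      · exact Or.inr h
    rw [← hT] at h
    rw [h]
    funext i
    cases i with
    | none => simp [encC, nx]
    | some k =>
      simp only [encC, nx, mA, Pi.add_apply, Pi.mul_apply, Option.elim]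
      rw [enc_append]

/-- The numbering of the states. -/
structure Num' (S : Finset Λ') (M : ℕ) (st : Option Λ' × Option Γ' → ℕ) : Prop where
  pos : 0 < M
  lt : ∀ l ∈ Finset.insertNone S, ∀ v, st (l, v) < M
  inj : ∀ l ∈ Finset.insertNone S, ∀ v, ∀ l' ∈ Finset.insertNone S, ∀ v',
    st (l, v) = st (l', v') → l = l' ∧ v = v'

theorem exists_num' (S : Finset Λ') : ∃ M st, Num' S M st := by
  obtain ⟨M, st, h0, h1, h2⟩ :=
    exists_num (Finset.insertNone S ×ˢ (Finset.univ : Finset (Option Γ')))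
  refine ⟨M, st, h0, fun l hl v => h1 _ (by simp [hl]), fun l hl v l' hl' v' h => ?_⟩
  exact Prod.ext_iff.1 (h2 _ (by simp [hl]) _ (by simp [hl']) h)

theorem bf_mem (r : Rule S D) : (bf r).l ∈ Finset.insertNone S :=
  Finset.some_mem_insertNone.2 r.2.1

theorem bf_lt (hn : Num' S M st) (r : Rule S D) (i : Option K') :
    encC st (bf r) i < mB M D i := by
  cases i with
  | none => exact hn.lt _ (bf_mem r) _
  | some k =>
    exact lt_of_lt_of_le (enc_lt _) (Nat.pow_le_pow_right (by norm_num) (r.2.2 k))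

/-- One step on integer vectors. -/
def StepZ (S : Finset Λ') (D M : ℕ) (st : Option Λ' × Option Γ' → ℕ)
    (β β' : Option K' → ℤ) : Prop :=
  ∃ (r : Rule S D) (γ : Option K' → ℤ),
    (β = fun i => (encC st (bf r) i : ℤ) + mB M D i * γ i) ∧
      β' = fun i => (encC st (nx r) i : ℤ) + mA M r i * γ i

theorem rule_unique (hn : Num' S M st) {r r' : Rule S D} {γ γ' : Option K' → ℤ}
    (h : (fun i => (encC st (bf r) i : ℤ) + mB M D i * γ i) =
      fun i => (encC st (bf r') i : ℤ) + mB M D i * γ' i) : r = r' ∧ γ = γ' := by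
  have key := fun i => res_eq (bf_lt hn r i) (bf_lt hn r' i) (congrFun h i)
  refine ⟨Subtype.ext ?_, funext fun i => (key i).2⟩
  have h1 := hn.inj _ (bf_mem r) _ _ (bf_mem r') _ (key none).1
  refine Prod.ext (Option.some.inj h1.1) (Prod.ext h1.2 ?_)
  funext k
  exact enc_inj (key (some k)).1

theorem step_unique (hn : Num' S M st) {β β₁ β₂ : Option K' → ℤ} (h₁ : StepZ S D M st β β₁)
    (h₂ : StepZ S D M st β β₂) : β₁ = β₂ := by
  obtain ⟨r, γ, e1, rfl⟩ := h₁
  obtain ⟨r', γ', e2, rfl⟩ := h₂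
  obtain ⟨rfl, rfl⟩ := rule_unique hn (e1.symm.trans e2)
  rfl

theorem terminal (hn : Num' S M st) {c : Cf} (hc : c.l = none) (r : Rule S D)
    (γ : Option K' → ℤ) :
    (fun i => (encC st (bf r) i : ℤ) + mB M D i * γ i) ≠ fun i => (encC st c i : ℤ) := by
  intro h
  have hm : c.l ∈ Finset.insertNone S := by
    rw [hc]
    exact Finset.none_mem_insertNone
  have h1 : (encC st (bf r) none : ℤ) + mB M D none * γ none =
      (encC st c none : ℤ) + mB M D none * 0 := by
    rw [mul_zero, add_zero]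
    exact congrFun h none
  have h2 := (res_eq (bf_lt hn r none) (hn.lt _ hm _) h1).1
  have h3 := (hn.inj _ (bf_mem r) _ _ hm _ h2).1
  rw [hc] at h3
  cases h3

/-- A vector of a configuration that reaches the vector of a final configuration belongs to a
halting computation. -/
theorem dom_of_reach (hn : Num' S M st) (hD : ∀ l ∈ S, dp (tr l) ≤ D)
    (hS : ∀ c c' : Cf, c' ∈ TM2.step tr c → c.l ∈ Finset.insertNone S →
      c'.l ∈ Finset.insertNone S) {z : Cf} (hz : z.l = none) {β : Option K' → ℤ}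
    (h : Relation.ReflTransGen (StepZ S D M st) β fun i => (encC st z i : ℤ)) :
    ∀ c : Cf, c.l ∈ Finset.insertNone S → (β = fun i => (encC st c i : ℤ)) →
      (StateTransition.eval (TM2.step tr) c).Dom := by
  have stop : ∀ c : Cf, c.l = none → (StateTransition.eval (TM2.step tr) c).Dom := by
    rintro ⟨l, v, T⟩ hc
    cases hc
    exact Part.dom_iff_mem.2 ⟨_, StateTransition.mem_eval.2 ⟨Relation.ReflTransGen.refl, rfl⟩⟩
  induction h using Relation.ReflTransGen.head_induction_on with
  | refl =>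
    intro c hc e
    have hm : z.l ∈ Finset.insertNone S := by
      rw [hz]
      exact Finset.none_mem_insertNone
    have h1 : encC st z none = encC st c none := by exact_mod_cast congrFun e none
    exact stop c ((hn.inj _ hm _ _ hc _ h1).1.symm.trans hz)
  | head hst _ ih =>
    rintro ⟨l, v, T⟩ hc rfl
    cases l with
    | none => exact stop _ rfl
    | some l =>
      obtain ⟨r, γ, e1, e2⟩ :=
        step_rule (M := M) (st := st) hD (Finset.some_mem_insertNone.1 hc) v T
      have hs : TM2.stepAux (tr l) v T ∈ TM2.step tr (⟨some l, v, T⟩ : Cf) := rfl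
      have hZ : StepZ S D M st (fun i => (encC st ⟨some l, v, T⟩ i : ℤ))
          fun i => (encC st (TM2.stepAux (tr l) v T) i : ℤ) := by
        refine ⟨r, fun i => γ i, ?_, ?_⟩
        · rw [e1]
          funext i
          simp
        · rw [e2]
          funext i
          simp
      rw [StateTransition.reaches_eval (Relation.ReflTransGen.single hs)]
      exact ih _ (hS _ _ hs hc) (step_unique hn hst hZ)

/-- A computation of the machine is a chain of rules. -/
theorem reach_of_run (hD : ∀ l ∈ S, dp (tr l) ≤ D)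
    (hS : ∀ c c' : Cf, c' ∈ TM2.step tr c → c.l ∈ Finset.insertNone S →
      c'.l ∈ Finset.insertNone S) {c z : Cf}
    (h : Relation.ReflTransGen (fun x y : Cf => y ∈ TM2.step tr x) c z) :
    c.l ∈ Finset.insertNone S → Relation.ReflTransGen
      (fun β β' : Option K' → ℕ => ∃ (r : Rule S D) (γ : Option K' → ℕ),
        β = encC st (bf r) + mB M D * γ ∧ β' = encC st (nx r) + mA M r * γ)
      (encC st c) (encC st z) := by
  induction h using Relation.ReflTransGen.head_induction_on with
  | refl => exact fun _ => Relation.ReflTransGen.refl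
  | @head c c' hst _ ih =>
    intro hc
    refine Relation.ReflTransGen.head ?_ (ih (hS _ _ hst hc))
    obtain ⟨l, v, T⟩ := c
    cases l with
    | none => cases hst
    | some l =>
      have e : TM2.stepAux (tr l) v T = c' := Option.some.inj hst
      rw [← e]
      exact step_rule hD (Finset.some_mem_insertNone.1 hc) v T

/-- The number with `n` binary digits, all equal to one. -/
def ones (n : ℕ) : ℕ := Nat.rec 0 (fun _ x => 2 * x + 1) n

theorem ones_succ (n : ℕ) : ones (n + 1) = 2 * ones n + 1 := rfl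

theorem ones_inj : Function.Injective ones := by
  refine (strictMono_nat_of_lt_succ fun n => ?_).injective
  rw [ones_succ]
  omega

theorem ones_prim : Primrec ones :=
  Primrec.nat_rec₁ 0 (Primrec.succ.comp₂
    (Primrec.nat_mul.comp₂ (Primrec₂.const 2) Primrec₂.right))

/-- The name of the input stack. -/
def ee (n : ℕ) : ℕ := Nat.rec 2 (fun _ x => 4 + 5 * x) n

theorem ee_prim : Primrec ee :=
  Primrec.nat_rec₁ 2 (Primrec.nat_add.comp₂ (Primrec₂.const 4)
    (Primrec.nat_mul.comp₂ (Primrec₂.const 5) Primrec₂.right))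

theorem trNat_odd (m : ℕ) : trNat (2 * m + 1) = Γ'.bit1 :: trNat m := by
  have h : ((2 * m + 1 : ℕ) : Num) = Num.bit1 (m : Num) := by
    refine Num.to_nat_inj.1 ?_
    rw [Num.cast_bit1, Num.to_of_nat, Num.to_of_nat]
  unfold trNat
  rw [h]
  cases (m : Num) <;> rfl

theorem ee_eq (n : ℕ) : ee n = enc (trList [ones n]) := by
  induction n with
  | zero =>
    have : ones 0 = 0 := rfl
    simp only [this, trList, trNat_zero]
    rfl
  | succ n ih =>
    have : ee (n + 1) = 4 + 5 * ee n := rfl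
    rw [this, ih, ones_succ]
    simp only [trList, trNat_odd, List.cons_append, enc, dgt]

/-- The function that the machine computes. -/
def ff (m : ℕ) : Part ℕ :=
  (Nat.rfind fun n => Part.some (decide (ones n = m))).bind fun n =>
    ((Denumerable.ofNat Nat.Partrec.Code n).eval 0).map fun _ => 0

theorem ff_part : Partrec ff := by
  refine Partrec.bind (Partrec.rfind ?_) ?_
  · exact ((Primrec.eq.decide.comp (ones_prim.comp Primrec.snd) Primrec.fst).to_comp).to₂.partrec₂
  · refine Partrec.map (Nat.Partrec.Code.eval_part.comp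
      ((Computable.ofNat _).comp Computable.snd) (Computable.const 0)) ?_
    exact (Computable.const 0).to₂

theorem ff_ones (n : ℕ) :
    ff (ones n) = ((Denumerable.ofNat Nat.Partrec.Code n).eval 0).map fun _ => 0 := by
  have h : (Nat.rfind fun k => Part.some (decide (ones k = ones n))) = Part.some n := by
    rw [Part.eq_some_iff, Nat.mem_rfind]
    refine ⟨by simp, fun {m} hm => ?_⟩
    have : ones m ≠ ones n := fun e => hm.ne (ones_inj e)
    simp [this]
  unfold ff
  rw [h, Part.bind_some]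

theorem exists_prog : ∃ c : ToPartrec.Code, ∀ n,
    (Halts n → halt [0] ∈ StateTransition.eval (TM2.step tr) (init c [ones n])) ∧
      ((StateTransition.eval (TM2.step tr) (init c [ones n])).Dom → Halts n) := by
  obtain ⟨c, hc⟩ := ToPartrec.Code.exists_code (Nat.Partrec'.part_iff₁.2 ff_part)
  refine ⟨c, fun n => ?_⟩
  have h : c.eval [ones n] = pure <$> ff (ones n) := hc ⟨[ones n], rfl⟩
  rw [tr_eval, h, ff_ones]
  refine ⟨fun hn => ?_, fun hn => hn⟩
  obtain ⟨x, hx⟩ := Part.dom_iff_mem.1 hn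
  exact Part.mem_map _ (Part.mem_map _ (Part.mem_map (fun _ => 0) hx))

end MachP

open MachP in
theorem mach : MachStmt := by
  classical
  obtain ⟨c, hc⟩ := exists_prog
  obtain ⟨M, st, hn⟩ := exists_num' (codeSupp c Cont'.halt)
  set S := codeSupp c Cont'.halt with hSdef
  have hsup := tr_supports c Cont'.halt
  have hS : ∀ x y : Cf, y ∈ TM2.step tr x → x.l ∈ Finset.insertNone S →
      y.l ∈ Finset.insertNone S := fun x y h1 h2 =>
    @TM2.step_supports _ _ _ _ ⟨trNormal c Cont'.halt⟩ _ tr _ hsup x y h1 h2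
  set D := S.sup fun l => dp (tr l) with hDdef
  have hD : ∀ l ∈ S, dp (tr l) ≤ D := fun l hl => Finset.le_sup (f := fun l => dp (tr l)) hl
  have := finK
  have := rule_finite S D
  have hin : ∀ n, Function.update (encC st (init c [])) (some K'.main) (ee n) =
      encC st (init c [ones n]) := by
    intro n
    funext i
    rcases i with _ | k
    · rw [Function.update_of_ne (by simp)]
      rfl
    · cases k
      · rw [Function.update_self, ee_eq]
        rfl
      all_goals
        rw [Function.update_of_ne (by simp)]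
        rfl
  have hmem : ∀ v, (init c v : Cf).l ∈ Finset.insertNone S := fun v =>
    Finset.some_mem_insertNone.2 hsup.1
  refine ⟨Option K', Rule S D, Fintype.ofFinite _, inferInstance, Fintype.ofFinite _,
    fun r => encC st (nx r), fun r => encC st (bf r), fun r => mA M r, fun _ => mB M D,
    encC st (halt [0]), encC st (init c []), some K'.main, ee,
    {β | Relation.ReflTransGen (StepZ S D M st) β fun i => (encC st (halt [0]) i : ℤ)},
    ee_prim, fun r i => ?_, Relation.ReflTransGen.refl, fun r γ => ⟨fun h => ?_, fun h => ?_⟩,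
    fun n => ⟨fun h => ?_, fun h h' => ?_⟩⟩
  · cases i with
    | none => exact ⟨hn.pos, hn.pos⟩
    | some k => exact ⟨by simp [mA], by simp [mB]⟩
  · rcases Relation.ReflTransGen.cases_head h with h | ⟨β, h1, h2⟩
    · exact absurd h (terminal hn rfl r γ)
    · rw [step_unique hn h1 ⟨r, γ, rfl, rfl⟩] at h2
      exact h2
  · exact Relation.ReflTransGen.head ⟨r, γ, rfl, rfl⟩ h
  · rw [hin]
    exact reach_of_run hD hS (StateTransition.mem_eval.1 ((hc n).1 h)).1 (hmem _)
  · rw [hin] at h'
    exact h ((hc n).2 (dom_of_reach hn hD hS rfl h' _ (hmem _) rfl))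

end Pool.Agent.MP_5c31ca_lc.Q2

end MrgPart1

-- ======== part 2: formerly Pool.Agent.MP_5c31ca_lc.q2.Tables
section MrgPart2

/-!
The modular rules with a step counter and a restart rule: an infinite bounded chain of rules
exists exactly when the machine halts.
-/

set_option autoImplicit false

namespace Pool.Agent.MP_5c31ca_lc.Q2

theorem prim_table (f : ℕ → ℕ) (c : ℕ) : Primrec fun d => if d < c then f d else 0 := by
  refine ((Primrec.list_getD 0).comp (Primrec.const ((List.range c).map f)) Primrec.id).of_eq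
    fun d => ?_
  split_ifs with h
  · simp [List.getD_eq_getElem?_getD, h]
  · simp [List.getD_eq_getElem?_getD, h]

theorem chain_of {α : Type} {r : α → α → Prop} {x y : α} (h : Relation.ReflTransGen r x y) :
    ∃ (T : ℕ) (β : ℕ → α), β 0 = x ∧ β T = y ∧ ∀ s < T, r (β s) (β (s + 1)) := by
  induction h using Relation.ReflTransGen.head_induction_on with
  | refl => exact ⟨0, fun _ => y, rfl, rfl, fun s hs => absurd hs (by omega)⟩
  | @head c c' hst _ ih =>
    obtain ⟨T, β, h0, hT, hs⟩ := ih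
    refine ⟨T + 1, fun s => Nat.casesOn s c β, rfl, hT, fun s h => ?_⟩
    cases s with
    | zero => simpa [h0] using hst
    | succ s => exact hs s (by omega)

/-- A table on numbers: coordinate `0` is the counter, large rule numbers mean restart. -/
noncomputable def tb {ι ρ : Type} [Fintype ι] [Fintype ρ] (f : ρ → ι → ℕ) (f₀ : ℕ) (g : ι → ℕ)
    (g₀ : ℕ) (d i : ℕ) : ℕ :=
  if hi : i - 1 < Fintype.card ι ∧ i ≠ 0 then
    if hd : d < Fintype.card ρ then
      f ((Fintype.equivFin ρ).symm ⟨d, hd⟩) ((Fintype.equivFin ι).symm ⟨i - 1, hi.1⟩)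
    else g ((Fintype.equivFin ι).symm ⟨i - 1, hi.1⟩)
  else if d < Fintype.card ρ then f₀ else g₀

section Tb

variable {ι ρ : Type} [Fintype ι] [Fintype ρ] (f : ρ → ι → ℕ) (f₀ : ℕ) (g : ι → ℕ) (g₀ : ℕ)

theorem tb_00 {d : ℕ} (hd : d < Fintype.card ρ) : tb f f₀ g g₀ d 0 = f₀ := by
  simp [tb, hd]

theorem tb_10 {d : ℕ} (hd : ¬d < Fintype.card ρ) : tb f f₀ g g₀ d 0 = g₀ := by
  simp [tb, hd]

theorem tb_01 (r : ρ) (j : ι) :
    tb f f₀ g g₀ (Fintype.equivFin ρ r) (Fintype.equivFin ι j + 1) = f r j := by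
  simp [tb]

theorem tb_11 {d : ℕ} (hd : ¬d < Fintype.card ρ) (j : ι) :
    tb f f₀ g g₀ d (Fintype.equivFin ι j + 1) = g j := by
  simp [tb, hd]

theorem idx_cases {i : ℕ} (hi : i < Fintype.card ι + 1) :
    i = 0 ∨ ∃ j : ι, i = Fintype.equivFin ι j + 1 := by
  cases i with
  | zero => exact Or.inl rfl
  | succ i => exact Or.inr ⟨(Fintype.equivFin ι).symm ⟨i, by omega⟩, by simp⟩

theorem rule_cases (d : ℕ) :
    ¬d < Fintype.card ρ ∨ ∃ r : ρ, d = Fintype.equivFin ρ r := by
  by_cases h : d < Fintype.card ρ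
  · exact Or.inr ⟨(Fintype.equivFin ρ).symm ⟨d, h⟩, by simp⟩
  · exact Or.inl h

theorem tb_prim (G : ℕ → ι → ℕ) (hG : ∀ j, Primrec fun n => G n j) {i : ℕ}
    (hi : i < Fintype.card ι + 1) : Primrec₂ fun n d => tb f f₀ (G n) g₀ d i := by
  have h1 : Primrec fun n => tb f f₀ (G n) g₀ (Fintype.card ρ) i := by
    rcases idx_cases hi with rfl | ⟨j, rfl⟩
    · exact (Primrec.const g₀).of_eq fun n => (tb_10 _ _ _ _ (lt_irrefl _)).symm
    · exact (hG j).of_eq fun n => (tb_11 _ _ _ _ (lt_irrefl _) j).symm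
  refine (Primrec.ite (Primrec.nat_lt.comp Primrec.snd (Primrec.const (Fintype.card ρ)))
    ((prim_table (fun d => tb f f₀ (G 0) g₀ d i) (Fintype.card ρ)).comp Primrec.snd)
    (h1.comp Primrec.fst)).of_eq fun ⟨n, d⟩ => ?_
  by_cases h : d < Fintype.card ρ <;> simp [tb, h]

end Tb

/-- The tables of the extended system. -/
theorem tables : ∃ (K : ℕ) (a b m m' : ℕ → ℕ → ℕ → ℕ) (B : ℕ → ℕ), 1 ≤ K ∧
    (∀ i < K, (Primrec₂ fun n d => a n d i) ∧ (Primrec₂ fun n d => b n d i) ∧
      (Primrec₂ fun n d => m n d i) ∧ Primrec₂ fun n d => m' n d i) ∧ Primrec B ∧ ∀ n,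
    (Halts n → ∃ (g : ℕ) (R : ℕ → ℕ) (Γ : ℕ → ℕ → ℕ), (∀ s, R s < B n) ∧ ∀ s, ∀ i < K,
      a n (R s) i + m n (R s) i * Γ s i =
        b n (R (s + 1)) i + m' n (R (s + 1)) i * Γ (s + 1) i ∧
      b n (R s) i + m' n (R s) i * Γ s i < g ∧ Γ s i < g ∧ a n (R s) i + m n (R s) i < B n ∧
      b n (R s) i + m' n (R s) i < B n) ∧
    ∀ (g : ℕ) (R : ℕ → ℕ) (Γ : ℕ → ℕ → ℕ), (∀ s, ∀ i < K,
      a n (R s) i + m n (R s) i * Γ s i =
        b n (R (s + 1)) i + m' n (R (s + 1)) i * Γ (s + 1) i ∧
      b n (R s) i + m' n (R s) i * Γ s i < g) → Halts n := by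
  obtain ⟨ι, ρ, _, _, _, a, b, m, m', h, c₀, i₀, e, H, he, -, hH, hinv, hn⟩ := mach
  obtain ⟨C, hC⟩ : ∃ C, ∀ r i, a r i + m r i ≤ C ∧ b r i + m' r i ≤ C := by
    obtain ⟨C, hC⟩ := (Set.finite_range fun p : ρ × ι =>
      a p.1 p.2 + m p.1 p.2 + (b p.1 p.2 + m' p.1 p.2)).bddAbove
    refine ⟨C, fun r i => ?_⟩
    have := hC ⟨(r, i), rfl⟩
    simp only at this
    omega
  obtain ⟨C', hC'⟩ : ∃ C, ∀ i, h i ≤ C ∧ c₀ i ≤ C := by
    obtain ⟨C, hC⟩ := (Set.finite_range fun i : ι => h i + c₀ i).bddAbove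
    refine ⟨C, fun i => ?_⟩
    have := hC ⟨i, rfl⟩
    simp only at this
    omega
  refine ⟨Fintype.card ι + 1, fun n => tb a 1 (Function.update c₀ i₀ (e n)) 0,
    fun _ => tb b 0 h 0, fun _ => tb m 1 (fun _ => 0) 0, fun _ => tb m' 1 (fun _ => 0) 1,
    fun n => C + C' + Fintype.card ρ + 3 + e n, by omega, fun i hi => ⟨?_, ?_, ?_, ?_⟩,
    Primrec.nat_add.comp (Primrec.const _) he, fun n => ⟨fun hh => ?_, fun g R Γ hh => ?_⟩⟩
  · refine tb_prim a 1 0 (fun n => Function.update c₀ i₀ (e n)) (fun j => ?_) hi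
    by_cases hj : j = i₀
    · subst hj
      simpa using he
    · simpa [hj] using Primrec.const _
  · exact tb_prim b 0 0 (fun _ => h) (fun j => Primrec.const _) hi
  · exact tb_prim m 1 0 (fun _ _ => 0) (fun j => Primrec.const _) hi
  · exact tb_prim m' 1 1 (fun _ _ => 0) (fun j => Primrec.const _) hi
  · obtain ⟨T, β, h0, hT, hs⟩ := chain_of ((hn n).1 hh)
    choose r γ hr using hs
    let R : ℕ → ℕ := fun u =>
      if hu : u < T then Fintype.equivFin ρ (r u hu) else Fintype.card ρ
    let Γ : ℕ → ℕ → ℕ := fun u =>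
      tb a 0 (if hu : u < T then γ u hu else 0) u (Fintype.card ρ)
    have G0 : ∀ u, Γ u 0 = u := fun u => tb_10 _ _ _ _ (lt_irrefl _)
    have G1 : ∀ u (hu : u < T) j, Γ u (Fintype.equivFin ι j + 1) = γ u hu j := fun u hu j => by
      simp only [Γ]
      rw [tb_11 _ _ _ _ (lt_irrefl _), dif_pos hu]
    have R0 : ∀ u (hu : u < T), R u = Fintype.equivFin ρ (r u hu) := fun u hu => dif_pos hu
    have R0' : ∀ u, u < T → R u < Fintype.card ρ := fun u hu => by
      rw [R0 u hu]; exact Fin.is_lt _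
    have R1 : ¬R T < Fintype.card ρ := by
      simp only [R]
      rw [dif_neg (lt_irrefl _)]
      exact lt_irrefl _
    have cases : ∀ s, s % (T + 1) < T ∧ (s + 1) % (T + 1) = s % (T + 1) + 1 ∨
        s % (T + 1) = T ∧ (s + 1) % (T + 1) = 0 := fun s => by
      have h1 : s % (T + 1) < T + 1 := Nat.mod_lt _ (by omega)
      rw [← Nat.mod_add_mod]
      rcases (show s % (T + 1) < T ∨ s % (T + 1) = T by omega) with h2 | h2
      · exact Or.inl ⟨h2, Nat.mod_eq_of_lt (by omega)⟩
      · exact Or.inr ⟨h2, by rw [h2, Nat.mod_self]⟩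
    have B0 : ∀ u ≤ T, tb b 0 h 0 (R u) 0 + tb m' 1 (fun _ => 0) 1 (R u) 0 * Γ u 0 = u := by
      intro u hu
      rcases hu.lt_or_eq with hu | rfl
      · rw [tb_00 _ _ _ _ (R0' u hu), tb_00 _ _ _ _ (R0' u hu), G0]; omega
      · rw [tb_10 _ _ _ _ R1, tb_10 _ _ _ _ R1, G0]; omega
    have B1 : ∀ u ≤ T, ∀ j, tb b 0 h 0 (R u) (Fintype.equivFin ι j + 1) +
        tb m' 1 (fun _ => 0) 1 (R u) (Fintype.equivFin ι j + 1) *
          Γ u (Fintype.equivFin ι j + 1) = β u j := by
      intro u hu j
      rcases hu.lt_or_eq with hu | rfl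
      · rw [R0 u hu, tb_01, tb_01, G1 u hu, (hr u hu).1]; rfl
      · rw [tb_11 _ _ _ _ R1, tb_11 _ _ _ _ R1, hT]; omega
    obtain ⟨g, hg⟩ := (Set.finite_range fun p : Fin (T + 1) × Fin (Fintype.card ι + 1) =>
      tb b 0 h 0 (R p.1) p.2 + tb m' 1 (fun _ => 0) 1 (R p.1) p.2 * Γ p.1 p.2 +
        Γ p.1 p.2).bddAbove
    refine ⟨g + 1, fun s => R (s % (T + 1)), fun s => Γ (s % (T + 1)), fun s => ?_,
      fun s i hi => ⟨?_, ?_⟩⟩ <;> beta_reduce
    · rcases cases s with h1 | h1
      · have := R0' _ h1.1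
        omega
      · simp only [R]
        rw [dif_neg (by omega)]
        omega
    · have h2 : (s + 1) % (T + 1) ≤ T := Nat.lt_succ_iff.1 (Nat.mod_lt _ (by omega))
      rcases idx_cases hi with rfl | ⟨j, rfl⟩
      · rw [B0 _ h2]
        rcases cases s with h1 | h1
        · rw [tb_00 _ _ _ _ (R0' _ h1.1), tb_00 _ _ _ _ (R0' _ h1.1), G0]; omega
        · rw [h1.1, tb_10 _ _ _ _ R1, tb_10 _ _ _ _ R1]; omega
      · rw [B1 _ h2]
        rcases cases s with h1 | h1
        · rw [h1.2, R0 _ h1.1, tb_01, tb_01, G1 _ h1.1, (hr _ h1.1).2]; rfl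
        · rw [h1.1, tb_11 _ _ _ _ R1, tb_11 _ _ _ _ R1, h1.2, h0]; omega
    · have h3 := hg ⟨(⟨s % (T + 1), Nat.mod_lt _ (by omega)⟩, ⟨i, hi⟩), rfl⟩
      simp only at h3
      refine ⟨by omega, by omega, ?_⟩
      rcases rule_cases (ρ := ρ) (R (s % (T + 1))) with h4 | ⟨q, h4⟩
      · rcases idx_cases hi with rfl | ⟨j, rfl⟩
        · simp only [tb_10 _ _ _ _ h4]; omega
        · simp only [tb_11 _ _ _ _ h4]
          have h5 := hC' j
          by_cases hj : j = i₀
          · subst hj
            rw [Function.update_self]; omega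
          · rw [Function.update_of_ne hj]; omega
      · rcases idx_cases hi with rfl | ⟨j, rfl⟩
        · have h5 : R (s % (T + 1)) < Fintype.card ρ := by rw [h4]; exact Fin.is_lt _
          simp only [tb_00 _ _ _ _ h5]; omega
        · have h5 := hC q j
          simp only [h4, tb_01]; omega
  · by_contra hc
    beta_reduce at hh
    have rs : ∀ s₀, ∃ s, s₀ ≤ s ∧ ¬R s < Fintype.card ρ := fun s₀ => by
      by_contra hr
      push Not at hr
      have : ∀ k, k ≤ Γ (s₀ + k) 0 := fun k => by
        induction k with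
        | zero => omega
        | succ k ih =>
          have h1 := (hh (s₀ + k) 0 (by omega)).1
          simp only [tb_00 _ _ _ _ (hr (s₀ + k) (by omega)),
            tb_00 _ _ _ _ (hr (s₀ + k + 1) (by omega))] at h1
          rw [← add_assoc]
          omega
      have h1 := (hh (s₀ + g) 0 (by omega)).2
      simp only [tb_00 _ _ _ _ (hr (s₀ + g) (by omega))] at h1
      have := this g
      omega
    obtain ⟨s₀, -, h₀⟩ := rs 0
    let β : ℕ → ι → ℤ := fun s j => ((tb b 0 h 0 (R s) (Fintype.equivFin ι j + 1) +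
      tb m' 1 (fun _ => 0) 1 (R s) (Fintype.equivFin ι j + 1) *
        Γ s (Fintype.equivFin ι j + 1) : ℕ) : ℤ)
    have nx : ∀ s j, β (s + 1) j =
        ((tb a 1 (Function.update c₀ i₀ (e n)) 0 (R s) (Fintype.equivFin ι j + 1) +
          tb m 1 (fun _ => 0) 0 (R s) (Fintype.equivFin ι j + 1) *
            Γ s (Fintype.equivFin ι j + 1) : ℕ) : ℤ) := fun s j =>
      congrArg Nat.cast (hh s _ (by have := (Fintype.equivFin ι j).is_lt; omega)).1.symm
    have st : ∀ s, ¬R s < Fintype.card ρ → β s ∈ H := fun s hs => by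
      have : β s = fun i => (h i : ℤ) := funext fun j => by simp [β, tb_11 _ _ _ _ hs]
      rwa [this]
    have inv : ∀ s, s₀ + 1 ≤ s → β s ∉ H := fun s hs => by
      induction s, hs using Nat.le_induction with
      | base =>
        have : β (s₀ + 1) = fun i => (Function.update c₀ i₀ (e n) i : ℤ) := funext fun j => by
          rw [nx]; simp [tb_11 _ _ _ _ h₀]
        rw [this]
        exact (hn n).2 hc
      | succ s _ ih =>
        rcases rule_cases (ρ := ρ) (R s) with h4 | ⟨q, h4⟩
        · exact absurd (st s h4) ih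
        · have e1 : β s = fun i => (b q i : ℤ) + m' q i * (Γ s (Fintype.equivFin ι i + 1) : ℕ) :=
            funext fun j => by simp [β, h4, tb_01]
          have e2 : β (s + 1) =
              fun i => (a q i : ℤ) + m q i * (Γ s (Fintype.equivFin ι i + 1) : ℕ) :=
            funext fun j => by rw [nx]; simp [h4, tb_01]
          rw [e2, ← hinv, ← e1]
          exact ih
    obtain ⟨s, h1, h2⟩ := rs (s₀ + 1)
    exact inv s h1 (st s h2)

end Pool.Agent.MP_5c31ca_lc.Q2

end MrgPart2

-- marker of a merged file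
example : 731051 + 172639 = 731051 + 172639 := rfl
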