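import Pool.Agent.MP_5c31ca_lc.q2.Code
import Pool.Agent.MP_5c31ca_lc.q2.Tables

/-!
The halting problem reduces to the existence of a soliton.
-/

set_option autoImplicit false

namespace Pool.Agent.MP_5c31ca_lc.Q2

theorem pred_imp {α : Type} [Primcodable α] {p q : α → Prop} (hp : PrimrecPred p)
    (hq : PrimrecPred q) : PrimrecPred fun a => p a → q a :=
  (hp.not.or hq).of_eq fun _ => imp_iff_not_or.symm

theorem pred_all {α : Type} [Primcodable α] {p : ℕ → α → Prop} (K : ℕ)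
    (hp : ∀ i < K, PrimrecPred (p i)) : PrimrecPred fun a => ∀ i < K, p i a := by
  induction K with
  | zero =>
    exact (Primrec.eq.comp (Primrec.const 0) (Primrec.const 0)).of_eq fun a => by simp
  | succ K ih =>
    exact ((ih fun i hi => hp i (by omega)).and (hp K (by omega))).of_eq fun a =>
      Nat.forall_lt_succ_right.symm

theorem relT_congr {K : ℕ} {a b m m' : ℕ → ℕ → ℕ} {u v w u' v' w' : ℕ → ℕ}
    (hu : ∀ j < 2 + 3 * K, u' j = u j) (hv : ∀ j < 2 + 3 * K, v' j = v j)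
    (hw : ∀ j < 2 + 3 * K, w' j = w j) (h : RelT K a b m m' u v w) :
    RelT K a b m m' u' v' w' := by
  refine ⟨by rw [hu 0 (by omega), hv 0 (by omega)]; exact h.1, fun i hi => ?_⟩
  have := h.2 i hi
  unfold tP tQ at this ⊢
  rw [hu 1 (by omega), hv 0 (by omega), hv 1 (by omega), hw 0 (by omega), hw 1 (by omega),
    hu (2 + 3 * i) (by omega), hu (4 + 3 * i) (by omega), hv (2 + 3 * i) (by omega),
    hv (3 + 3 * i) (by omega), hv (4 + 3 * i) (by omega), hw (3 + 3 * i) (by omega),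
    hw (4 + 3 * i) (by omega)]
  exact this

theorem prim_relT {K : ℕ} {a b m m' : ℕ → ℕ → ℕ → ℕ} {B : ℕ → ℕ}
    (h : ∀ i < K, (Primrec₂ fun n d => a n d i) ∧ (Primrec₂ fun n d => b n d i) ∧
      (Primrec₂ fun n d => m n d i) ∧ Primrec₂ fun n d => m' n d i) (hB : Primrec B) :
    PrimrecPred fun z : ℕ × ℕ × ℕ × ℕ => RelT K (a z.1) (b z.1) (m z.1) (m' z.1)
      (dg (B z.1) z.2.1) (dg (B z.1) z.2.2.1) (dg (B z.1) z.2.2.2) := by
  have hB' : Primrec fun z : ℕ × ℕ × ℕ × ℕ => B z.1 := hB.comp Primrec.fst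
  have u : ∀ k, Primrec fun z : ℕ × ℕ × ℕ × ℕ => dg (B z.1) z.2.1 k :=
    prim_dg hB' (Primrec.fst.comp Primrec.snd)
  have v : ∀ k, Primrec fun z : ℕ × ℕ × ℕ × ℕ => dg (B z.1) z.2.2.1 k :=
    prim_dg hB' (Primrec.fst.comp (Primrec.snd.comp Primrec.snd))
  have w : ∀ k, Primrec fun z : ℕ × ℕ × ℕ × ℕ => dg (B z.1) z.2.2.2 k :=
    prim_dg hB' (Primrec.snd.comp (Primrec.snd.comp Primrec.snd))
  have md : ∀ {f : ℕ × ℕ × ℕ × ℕ → ℕ}, Primrec f → Primrec fun z => f z % 2 := fun hf =>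
    Primrec.nat_mod.comp hf (Primrec.const 2)
  have dv : ∀ {f : ℕ × ℕ × ℕ × ℕ → ℕ}, Primrec f → Primrec fun z => f z / 2 := fun hf =>
    Primrec.nat_div.comp hf (Primrec.const 2)
  have eq : ∀ {f g : ℕ × ℕ × ℕ × ℕ → ℕ}, Primrec f → Primrec g →
      PrimrecPred fun z => f z = g z := fun hf hg => Primrec.eq.comp hf hg
  refine (eq (md (v 0)) (md (u 0))).not.and (pred_all K fun i hi => ?_)
  obtain ⟨ha, hb, hm, hm'⟩ := h i hi
  have P : Primrec fun z : ℕ × ℕ × ℕ × ℕ => tP (m' z.1) (dg (B z.1) z.2.2.1) i :=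
    prim_add (v _) (prim_mul (hm'.comp Primrec.fst (v 1)) (v _))
  have Q : Primrec fun z : ℕ × ℕ × ℕ × ℕ => tQ (m z.1) (dg (B z.1) z.2.2.1) i :=
    prim_add (v _) (prim_mul (hm.comp Primrec.fst (v 1)) (v _))
  have Q' : Primrec fun z : ℕ × ℕ × ℕ × ℕ => tQ (m z.1) (dg (B z.1) z.2.1) i :=
    prim_add (u _) (prim_mul (hm.comp Primrec.fst (u 1)) (u _))
  exact (eq (md P) (md Q')).and
    ((pred_imp (eq (md (v 0)) (md (w 0)))
      ((eq (w 1) (v 1)).and ((eq (w _) (dv P)).and (eq (w _) (dv Q))))).and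
    (pred_imp (eq (md (v 0)) (md (w 0))).not
      ((eq (dv P) (Primrec.const 0)).and ((eq (dv Q) (Primrec.const 0)).and
        ((eq (w _) (hb.comp Primrec.fst (w 1))).and (eq (w _) (ha.comp Primrec.fst (w 1))))))))

/-- A primitive recursive family of automata of radius one: soliton exactly on halting. -/
theorem reduction : ∃ (N : ℕ → ℕ) (f : ∀ n, (Fin (2 * 1 + 1) → Fin (N n)) → Fin (N n)),
    (∀ n, 0 < N n) ∧ (Primrec fun n => caCode 1 (f n)) ∧
      ∀ n, HasSoliton (ca 1 (f n)) ↔ Halts n := by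
  obtain ⟨K, a, b, m, m', B₀, hK, hp, hB, hn⟩ := tables
  let B : ℕ → ℕ := fun n => 2 * B₀ n + 3
  have hB' : Primrec B := prim_add (prim_mul (Primrec.const 2) hB) (Primrec.const 3)
  let M : ℕ → ℕ := fun n => B n ^ (2 + 3 * K)
  have h1 : ∀ n, 1 < M n := fun n => Nat.one_lt_pow (by omega) (by simp only [B]; omega)
  have : ∀ n, NeZero (M n) := fun n => ⟨by have := h1 n; omega⟩
  have : ∀ n, Fact (1 < M n) := fun n => ⟨h1 n⟩
  let RN : ℕ → ℕ → ℕ → ℕ → Prop := fun n x y z =>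
    RelT K (a n) (b n) (m n) (m' n) (dg (B n) x) (dg (B n) y) (dg (B n) z)
  refine ⟨fun n => M n ^ 7, fun n => fN (M n) (RN n),
    fun n => Nat.pow_pos (by have := h1 n; omega), prim_code (prim_pow hB' _) (prim_relT hp hB'), fun n => ?_⟩
  rw [ca_iff]
  constructor
  · intro h
    have hu : IsUnit ((2 : ℕ) : ZMod (M n)) := by
      rw [ZMod.isUnit_iff_coprime, Nat.coprime_two_left]
      exact Odd.pow ⟨B₀ n + 1, by simp only [B]; ring⟩
    obtain ⟨D, -, τ, hτ⟩ := helix_of_soliton _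
      (fun z hz => hu.mul_right_eq_zero.1 (by simpa using hz)) h
    obtain ⟨g, R, Γ, hR⟩ := rows_of_helix K _ _ _ _ hK D (fun t => dg (B n) (τ t).val) hτ
    exact (hn n).2 g R Γ hR
  · intro h
    obtain ⟨g, R, Γ, hR, hΓ⟩ := (hn n).1 h
    obtain ⟨D, hD, τ, hτ, hrel⟩ := helix_of_rows K (a n) (b n) (m n) (m' n) (B n) g
      (by simp only [B]; omega) R Γ (fun s => by have := hR s; simp only [B]; omega)
      fun s i hi => by
        obtain ⟨e1, e2, e3, e4, e5⟩ := hΓ s i hi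
        exact ⟨e1, e2, e3, by simp only [B]; omega, by simp only [B]; omega⟩
    let w : ℕ → Fin (M n) := fun t =>
      finFunctionFinEquiv fun j : Fin (2 + 3 * K) => (⟨τ t j, hτ t j j.2⟩ : Fin (B n))
    have hw : ∀ t, ∀ j < 2 + 3 * K, dg (B n) (((w t : ℕ) : ZMod (M n))).val j = τ t j :=
      fun t j hj => by
        rw [ZMod.val_cast_of_lt (w t).2]
        exact congrArg Fin.val (congrFun (finFunctionFinEquiv.symm_apply_apply _) ⟨j, hj⟩)
    exact soliton_of_helix _ ⟨D, hD, fun t => ((w t : ℕ) : ZMod (M n)),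
      fun t => relT_congr (hw _) (hw _) (hw _) (hrel t)⟩

end Pool.Agent.MP_5c31ca_lc.Q2
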